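import Pool.Agent.W659.EC.CP

/-! Definitions: decomposable systems, nuclear dimension, decomposition rank, the three entropies. -/

set_option autoImplicit false

open scoped Matrix.Norms.L2Operator ENNReal Matrix

noncomputable section

namespace Pool.Agent.W659.EC

/-- A finite-dimensional C*-algebra, presented as a finite direct sum of full matrix algebras:
the summands are indexed by `ι`, the summand `i` is the algebra of all complex matrices with
rows and columns indexed by the finite set `n i`. -/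
structure FDA : Type 1 where
  /-- index set of the summands -/
  ι : Type
  /-- index sets of the rows and columns -/
  n : ι → Type
  [fι : Fintype ι]
  [fn : ∀ i, Fintype (n i)]
  [dn : ∀ i, DecidableEq (n i)]

attribute [instance] FDA.fι FDA.fn FDA.dn

/-- the algebra `⨁_i M_{n i}(ℂ)`, with the operator norm -/
abbrev FDA.alg (F : FDA) : Type := ∀ i : F.ι, Matrix (F.n i) (F.n i) ℂ

/-- the rank of `⨁_i M_{n i}(ℂ)`, the dimension of a maximal abelian subalgebra -/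
def FDA.rank (F : FDA) : ℕ := ∑ i : F.ι, Fintype.card (F.n i)

section

variable (A : Type) [NonUnitalCStarAlgebra A]

/-- There are a finite-dimensional algebra `F` of rank `r` and cpc maps `ψ : A → F`, `φ : F → A`
with `‖φ (ψ a) - a‖ ≤ ε` for all `a ∈ G`. -/
def HasCPA (G : Set A) (ε : ℝ) (r : ℕ) : Prop :=
  ∃ F : FDA, F.rank = r ∧ ∃ (ψ : A →ₗ[ℂ] F.alg) (φ : F.alg →ₗ[ℂ] A),
    IsCPC ψ ∧ IsCPC φ ∧ ∀ a ∈ G, ‖φ (ψ a) - a‖ ≤ ε

/-- There is a `(d, G, ε)`-decomposable system of rank `r`: finite-dimensional algebras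
`F 0, …, F d` whose ranks have sum `r`, a cpc map `ψ : A → F 0 ⊕ ⋯ ⊕ F d` and cpc order zero
maps `φ j : F j → A` with `‖∑ j, φ j (ψ a j) - a‖ ≤ ε` for all `a ∈ G`. -/
def HasDec (d : ℕ) (G : Set A) (ε : ℝ) (r : ℕ) : Prop :=
  ∃ F : Fin (d + 1) → FDA, ∑ j, (F j).rank = r ∧
    ∃ (ψ : A →ₗ[ℂ] ∀ j, (F j).alg) (φ : ∀ j, (F j).alg →ₗ[ℂ] A),
      IsCPC ψ ∧ (∀ j, IsCPC (φ j) ∧ IsOrderZero (φ j)) ∧
        ∀ a ∈ G, ‖∑ j, φ j (ψ a j) - a‖ ≤ ε

/-- The same with contractive systems: the map `φ = ∑ j, φ j` is contractive. -/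
def HasContrDec (d : ℕ) (G : Set A) (ε : ℝ) (r : ℕ) : Prop :=
  ∃ F : Fin (d + 1) → FDA, ∑ j, (F j).rank = r ∧
    ∃ (ψ : A →ₗ[ℂ] ∀ j, (F j).alg) (φ : ∀ j, (F j).alg →ₗ[ℂ] A),
      IsCPC ψ ∧ (∀ j, IsCPC (φ j) ∧ IsOrderZero (φ j)) ∧
        (∀ f : ∀ j, (F j).alg, ‖∑ j, φ j (f j)‖ ≤ ‖f‖) ∧
        ∀ a ∈ G, ‖∑ j, φ j (ψ a j) - a‖ ≤ ε

/-- The nuclear dimension of `A`: the least `d` such that `(d, G, ε)`-decomposable systems exist
for all finite `G` and all `ε > 0`, and `⊤` if there is no such `d`. -/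
def nucDim : ℕ∞ :=
  ⨅ (d : ℕ) (_ : ∀ (G : Finset A) (ε : ℝ), 0 < ε → ∃ r, HasDec A d G ε r), (d : ℕ∞)

/-- The decomposition rank of `A`: the least `d` such that contractive
`(d, G, ε)`-decomposable systems exist for all finite `G` and all `ε > 0`, and `⊤` if there is
no such `d`. -/
def decRank : ℕ∞ :=
  ⨅ (d : ℕ) (_ : ∀ (G : Finset A) (ε : ℝ), 0 < ε → ∃ r, HasContrDec A d G ε r), (d : ℕ∞)

variable {A}

/-- the set `F ∪ α(F) ∪ ⋯ ∪ α^{n-1}(F)` -/
def orb (α : A →⋆ₙₐ[ℂ] A) (F : Finset A) (n : ℕ) : Set A :=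
  {b | ∃ i < n, ∃ a ∈ F, (α^[i]) a = b}

/-- The entropy `h_r(α) = sup_F sup_{ε > 0} limsup_n (1/n) log r(F_n, ε)` of `α` with respect to
a family of systems: `R G ε r` says that there is a system of rank `r` for `G` and `ε`, and
`r(G, ε)` is the infimum of the ranks (`⊤` if there is no system). -/
def entropy (R : Set A → ℝ → ℕ → Prop) (α : A →⋆ₙₐ[ℂ] A) : EReal :=
  ⨆ (F : Finset A) (ε : ℝ) (_ : 0 < ε),
    Filter.limsup (fun n : ℕ =>
      ENNReal.log (⨅ (r : ℕ) (_ : R (orb α F n) ε r), (r : ℝ≥0∞)) / ((n : ℝ) : EReal))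
      Filter.atTop

/-- the Brown–Voiculescu entropy -/
def ht (α : A →⋆ₙₐ[ℂ] A) : EReal := entropy (HasCPA A) α

/-- the entropy `ht_nuc` -/
def htNuc (α : A →⋆ₙₐ[ℂ] A) : EReal :=
  ⨅ (d : ℕ) (_ : nucDim A = d), entropy (HasDec A d) α

/-- the entropy `ht_dr` -/
def htDr (α : A →⋆ₙₐ[ℂ] A) : EReal :=
  ⨅ (d : ℕ) (_ : decRank A = d), entropy (HasContrDec A d) α

end

end Pool.Agent.W659.EC
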