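import Mathlib

/-! Completely positive maps: basic facts. -/

set_option autoImplicit false

open scoped Matrix.Norms.L2Operator ENNReal Matrix

noncomputable section

namespace Pool.Agent.W659.EC

section defs

variable {A B : Type} [NonUnitalCStarAlgebra A] [NonUnitalCStarAlgebra B]

/-- The linear map `φ` is completely positive: for every `k`, applying `φ` to the entries of
`k × k` matrices maps positive elements `Mᴴ * M` of `M_k(A)` to positive elements of `M_k(B)`. -/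
def IsCP (φ : A →ₗ[ℂ] B) : Prop :=
  ∀ (k : ℕ) (M : Matrix (Fin k) (Fin k) A), ∃ N : Matrix (Fin k) (Fin k) B,
    (Mᴴ * M).map φ = Nᴴ * N

/-- completely positive and contractive -/
def IsCPC (φ : A →ₗ[ℂ] B) : Prop := IsCP φ ∧ ∀ a, ‖φ a‖ ≤ ‖a‖

/-- order zero: positive elements with product zero are mapped to elements with product zero -/
def IsOrderZero (φ : A →ₗ[ℂ] B) : Prop :=
  ∀ a b : A, star a * a * (star b * b) = 0 → φ (star a * a) * φ (star b * b) = 0

end defs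

/-- positive matrices over a C*-algebra -/
def MPos {B : Type} [NonUnitalCStarAlgebra B] {k : ℕ} (X : Matrix (Fin k) (Fin k) B) : Prop :=
  ∃ N : Matrix (Fin k) (Fin k) B, X = Nᴴ * N

section basic

variable {A B D : Type} [NonUnitalCStarAlgebra A] [NonUnitalCStarAlgebra B]
  [NonUnitalCStarAlgebra D]

theorem nonneg_iff_star [PartialOrder A] [StarOrderedRing A] (a : A) :
    0 ≤ a ↔ ∃ b, a = star b * b :=
  CStarAlgebra.nonneg_iff_eq_star_mul_self

theorem mpos_iff [PartialOrder B] [StarOrderedRing B] {k : ℕ} (X : Matrix (Fin k) (Fin k) B) :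
    MPos X ↔ 0 ≤ CStarMatrix.ofMatrix X := by
  rw [nonneg_iff_star]
  rfl

theorem MPos.add {k : ℕ} {X Y : Matrix (Fin k) (Fin k) B} (hX : MPos X) (hY : MPos Y) :
    MPos (X + Y) := by
  let _ := CStarAlgebra.spectralOrder B
  let _ := CStarAlgebra.spectralOrderedRing B
  rw [mpos_iff] at *
  exact add_nonneg hX hY

theorem MPos.zero {k : ℕ} : MPos (0 : Matrix (Fin k) (Fin k) B) := ⟨0, by simp⟩

theorem MPos.sum {k : ℕ} {J : Type} (s : Finset J) {X : J → Matrix (Fin k) (Fin k) B}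
    (hX : ∀ j ∈ s, MPos (X j)) : MPos (∑ j ∈ s, X j) := by
  classical
  induction s using Finset.induction_on with
  | empty => simpa using MPos.zero
  | insert j s hj ih =>
    rw [Finset.sum_insert hj]
    exact (hX j (Finset.mem_insert_self _ _)).add
      (ih fun i hi => hX i (Finset.mem_insert_of_mem hi))

theorem MPos.smul {k : ℕ} {X : Matrix (Fin k) (Fin k) B} (hX : MPos X) {c : ℝ} (hc : 0 ≤ c) :
    MPos ((c : ℂ) • X) := by
  obtain ⟨N, rfl⟩ := hX
  refine ⟨((Real.sqrt c : ℝ) : ℂ) • N, ?_⟩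
  rw [Matrix.conjTranspose_smul, Matrix.smul_mul, Matrix.mul_smul, smul_smul]
  congr 1
  rw [Complex.star_def, Complex.conj_ofReal, ← Complex.ofReal_mul, Real.mul_self_sqrt hc]

theorem IsCP.comp {ψ : B →ₗ[ℂ] D} {φ : A →ₗ[ℂ] B} (hψ : IsCP ψ) (hφ : IsCP φ) :
    IsCP (ψ ∘ₗ φ) := by
  intro k M
  obtain ⟨N, hN⟩ := hφ k M
  obtain ⟨P, hP⟩ := hψ k N
  refine ⟨P, ?_⟩
  rw [← hP, ← hN, Matrix.map_map]
  rfl

theorem IsCPC.comp {ψ : B →ₗ[ℂ] D} {φ : A →ₗ[ℂ] B} (hψ : IsCPC ψ) (hφ : IsCPC φ) :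
    IsCPC (ψ ∘ₗ φ) :=
  ⟨hψ.1.comp hφ.1, fun a => (hψ.2 _).trans (hφ.2 a)⟩

theorem isCP_iff {φ : A →ₗ[ℂ] B} :
    IsCP φ ↔ ∀ (k : ℕ) (X : Matrix (Fin k) (Fin k) A), MPos X → MPos (X.map φ) := by
  constructor
  · rintro h k X ⟨M, rfl⟩
    exact h k M
  · intro h k M
    exact h k _ ⟨M, rfl⟩

theorem IsCP.add {φ ψ : A →ₗ[ℂ] B} (hφ : IsCP φ) (hψ : IsCP ψ) : IsCP (φ + ψ) := by
  rw [isCP_iff] at *
  intro k X hX
  have : X.map (φ + ψ : A →ₗ[ℂ] B) = X.map φ + X.map ψ := by ext i j; simp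
  rw [this]
  exact (hφ k X hX).add (hψ k X hX)

theorem IsCP.zero : IsCP (0 : A →ₗ[ℂ] B) := by
  rw [isCP_iff]
  intro k X _
  have : X.map (0 : A →ₗ[ℂ] B) = 0 := by ext i j; simp
  rw [this]
  exact MPos.zero

theorem IsCP.sum {J : Type} (s : Finset J) {φ : J → A →ₗ[ℂ] B} (h : ∀ j ∈ s, IsCP (φ j)) :
    IsCP (∑ j ∈ s, φ j) := by
  classical
  induction s using Finset.induction_on with
  | empty => simpa using IsCP.zero
  | insert j s hj ih =>
    rw [Finset.sum_insert hj]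
    exact (h j (Finset.mem_insert_self _ _)).add
      (ih fun i hi => h i (Finset.mem_insert_of_mem hi))

theorem IsCP.smul {φ : A →ₗ[ℂ] B} (hφ : IsCP φ) {c : ℝ} (hc : 0 ≤ c) :
    IsCP ((c : ℂ) • φ) := by
  rw [isCP_iff] at *
  intro k X hX
  have : X.map ((c : ℂ) • φ : A →ₗ[ℂ] B) = (c : ℂ) • X.map φ := by ext i j; simp
  rw [this]
  exact (hφ k X hX).smul hc

theorem isCP_hom {F : Type} [FunLike F A B] [NonUnitalAlgHomClass F ℂ A B] [StarHomClass F A B]
    (π : F) (φ : A →ₗ[ℂ] B) (h : ∀ a, φ a = π a) : IsCP φ := by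
  intro k M
  refine ⟨M.map π, ?_⟩
  ext i j
  simp only [Matrix.map_apply, Matrix.mul_apply, Matrix.conjTranspose_apply, h]
  rw [map_sum]
  simp [map_mul, map_star]

theorem isCPC_hom {F : Type} [FunLike F A B] [NonUnitalAlgHomClass F ℂ A B] [StarHomClass F A B]
    (π : F) (φ : A →ₗ[ℂ] B) (h : ∀ a, φ a = π a) : IsCPC φ :=
  ⟨isCP_hom π φ h, fun a => by rw [h]; exact NonUnitalStarAlgHom.norm_apply_le π a⟩

theorem isOrderZero_hom {F : Type} [FunLike F A B] [NonUnitalAlgHomClass F ℂ A B]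
    [StarHomClass F A B] (π : F) (φ : A →ₗ[ℂ] B) (h : ∀ a, φ a = π a) : IsOrderZero φ := by
  intro a b hab
  rw [h, h, ← map_mul, hab, map_zero]

/-- A family of jointly injective *-homomorphisms detects positivity. -/
theorem nonneg_of_family {J : Type} {E : J → Type} [∀ j, NonUnitalCStarAlgebra (E j)]
    [PartialOrder A] [StarOrderedRing A] [∀ j, PartialOrder (E j)] [∀ j, StarOrderedRing (E j)]
    (f : ∀ j, A →⋆ₙₐ[ℂ] E j) (hf : ∀ a : A, (∀ j, f j a = 0) → a = 0) (a : A)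
    (h : ∀ j, 0 ≤ f j a) : 0 ≤ a := by
  have hsa : IsSelfAdjoint a := by
    rw [IsSelfAdjoint, ← sub_eq_zero]
    refine hf _ fun j => ?_
    rw [map_sub, map_star, (IsSelfAdjoint.of_nonneg (h j)).star_eq, sub_self]
  rw [← CFC.negPart_eq_zero_iff a hsa]
  refine hf _ fun j => ?_
  have hc : Continuous (f j) :=
    ((f j : A →ₗ[ℂ] E j).mkContinuous 1 (fun x => by
      rw [one_mul]; exact NonUnitalStarAlgHom.norm_apply_le (f j) x)).continuous
  have h2 : f j a⁻ = (f j a)⁻ := by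
    rw [CFC.negPart_def, CFC.negPart_def]
    exact NonUnitalStarAlgHom.map_cfcₙ (S := ℂ) (f j) (fun x : ℝ => x⁻) a (hφ := hc)
      (hφa := hsa.map (f j))
  rw [h2, CFC.negPart_eq_zero_iff _ (hsa.map (f j))]
  exact h j

/-- Complete positivity can be checked on a jointly injective family of *-homomorphisms. -/
theorem isCP_of_family {J : Type} {E : J → Type} [∀ j, NonUnitalCStarAlgebra (E j)]
    (f : ∀ j, B →⋆ₙₐ[ℂ] E j) (hf : ∀ b : B, (∀ j, f j b = 0) → b = 0) (φ : A →ₗ[ℂ] B)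
    (h : ∀ j, IsCP ((f j : B →ₗ[ℂ] E j) ∘ₗ φ)) : IsCP φ := by
  let _ := CStarAlgebra.spectralOrder B
  let _ := CStarAlgebra.spectralOrderedRing B
  let _ := fun j => CStarAlgebra.spectralOrder (E j)
  let _ := fun j => CStarAlgebra.spectralOrderedRing (E j)
  intro k M
  change MPos _
  rw [mpos_iff]
  refine nonneg_of_family
    (fun j => (CStarMatrix.mapₙₐ (f j) : CStarMatrix (Fin k) (Fin k) B →⋆ₙₐ[ℂ]
      CStarMatrix (Fin k) (Fin k) (E j))) ?_ _ ?_
  · intro X hX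
    ext i l
    refine hf _ fun j => ?_
    have := congrFun (congrFun (hX j) i) l
    exact this
  · intro j
    obtain ⟨N, hN⟩ := h j k M
    rw [nonneg_iff_star]
    refine ⟨CStarMatrix.ofMatrix N, ?_⟩
    have : (CStarMatrix.mapₙₐ (f j)) (CStarMatrix.ofMatrix ((Mᴴ * M).map φ))
        = CStarMatrix.ofMatrix (Nᴴ * N) := by
      rw [← hN]
      rfl
    rw [this]
    rfl

end basic

end Pool.Agent.W659.EC
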