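import Pool.Agent.W659.EC.Af

/-! The elements `w`, `v`, `pO` and the automorphism. -/

set_option autoImplicit false
set_option linter.unusedVariables false

open scoped Matrix.Norms.L2Operator ENNReal Matrix

noncomputable section

namespace Pool.Agent.W659.EC

theorem norm_dg_sub_le {p : ℕ} (z z' : Fin (2 ^ p) → ℂ) {C : ℝ} (hC : 0 ≤ C)
    (h : ∀ i, ‖z i - z' i‖ ≤ C) : ‖dg z - dg z'‖ ≤ C := by
  rw [dg, dg, Matrix.diagonal_sub, Matrix.l2_opNorm_diagonal, pi_norm_le_iff_of_nonneg hC]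
  intro i
  rcases i with _ | i
  · simpa using hC
  · exact h i

theorem norm_dg_le {p : ℕ} (z : Fin (2 ^ p) → ℂ) (h : ∀ i, ‖z i‖ ≤ 1) : ‖dg z‖ ≤ 1 := by
  rw [dg, Matrix.l2_opNorm_diagonal, pi_norm_le_iff_of_nonneg zero_le_one]
  intro i
  rcases i with _ | i
  · simp
  · exact h i

theorem dg_mul {p : ℕ} (z z' : Fin (2 ^ p) → ℂ) : dg z * dg z' = dg (z * z') := by
  rw [dg, dg, dg, Matrix.diagonal_mul_diagonal]
  congr 1
  funext i
  rcases i with _ | i <;> simp

theorem dg_one (p : ℕ) : dg (1 : Fin (2 ^ p) → ℂ) = 1 := by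
  rw [dg, ← Matrix.diagonal_one]
  congr 1
  funext i
  rcases i with _ | i <;> simp

theorem dg_pow {p : ℕ} (z : Fin (2 ^ p) → ℂ) (j : ℕ) : dg z ^ j = dg (z ^ j) := by
  induction j with
  | zero => rw [pow_zero, pow_zero, dg_one]
  | succ j ih => rw [pow_succ, pow_succ, ih, dg_mul]

theorem dg_star {p : ℕ} (z : Fin (2 ^ p) → ℂ) : star (dg z) = dg (star z) := by
  rw [dg, dg, Matrix.star_eq_conjTranspose, Matrix.diagonal_conjTranspose]
  congr 1
  funext i
  rcases i with _ | i <;> simp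

theorem ex_add (s t : ℝ) : ex (s + t) = ex s * ex t := by
  rw [ex, ex, ex, ← Complex.exp_add]
  congr 1
  push_cast
  ring

theorem norm_ex (t : ℝ) : ‖ex t‖ = 1 := by
  have : (2 * Real.pi * Complex.I * t : ℂ) = ((2 * Real.pi * t : ℝ) : ℂ) * Complex.I := by
    push_cast; ring
  rw [ex, this, Complex.norm_exp_ofReal_mul_I]

theorem ex_pow (t : ℝ) (j : ℕ) : ex t ^ j = ex (j * t) := by
  rw [ex, ex, ← Complex.exp_nat_mul]
  congr 1
  push_cast
  ring

theorem ex_neg (t : ℝ) : star (ex t) = ex (-t) := by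
  rw [ex, ex, Complex.star_def, ← Complex.exp_conj]
  congr 1
  have h2 : (starRingEnd ℂ) 2 = 2 := Complex.conj_ofReal 2
  simp [Complex.conj_ofReal, h2]

theorem ex_zero : ex 0 = 1 := by simp [ex]

theorem ex_sub_le (s t : ℝ) : ‖ex s - ex t‖ ≤ 2 * Real.pi * |s - t| := by
  have h1 : ex s - ex t = ex t * (ex (s - t) - 1) := by
    rw [mul_sub, mul_one, ← ex_add]
    congr 2
    ring
  rw [h1, norm_mul, norm_ex, one_mul]
  have h2 : ex (s - t) = Complex.exp (Complex.I * ((2 * Real.pi * (s - t) : ℝ) : ℂ)) := by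
    rw [ex]
    congr 1
    push_cast
    ring
  rw [h2]
  refine (Real.norm_exp_I_mul_ofReal_sub_one_le).trans ?_
  rw [Real.norm_eq_abs, abs_mul, abs_of_pos (by positivity : (0 : ℝ) < 2 * Real.pi)]

theorem wm_pow (p : ℕ) (x : Pt p) (j : ℕ) : wm p x ^ j = dg fun i => ex (j * x.c i) := by
  rw [wm, dg_pow]
  congr 1
  funext i
  exact ex_pow _ _

theorem norm_wm_pow_le (p : ℕ) (x : Pt p) (j : ℕ) : ‖wm p x ^ j‖ ≤ 1 := by
  rw [wm_pow]
  exact norm_dg_le _ fun i => (norm_ex _).le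

theorem wm_star_mul (p : ℕ) (x : Pt p) : star (wm p x) * wm p x = 1 := by
  rw [wm, dg_star, dg_mul, ← dg_one]
  congr 1
  funext i
  change star (ex _) * ex _ = 1
  rw [ex_neg, ← ex_add, neg_add_cancel, ex_zero]

theorem wm_mul_star (p : ℕ) (x : Pt p) : wm p x * star (wm p x) = 1 := by
  rw [wm, dg_star, dg_mul, ← dg_one]
  congr 1
  funext i
  change ex _ * star (ex _) = 1
  rw [ex_neg, ← ex_add, add_neg_cancel, ex_zero]

/-- two points in the same class: the powers of the unitary are close -/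
theorem wm_pow_dist {d p : ℕ} {x x' : Pt p} (h : tr d x = tr d x') (j : ℕ) :
    ‖wm p x ^ j - wm p x' ^ j‖ ≤ 2 * Real.pi * j * (2 ^ d)⁻¹ := by
  rw [wm_pow, wm_pow]
  refine norm_dg_sub_le _ _ (by positivity) fun i => ?_
  refine (ex_sub_le _ _).trans ?_
  have h1 := tr_dist h i
  rw [← mul_sub, abs_mul, Nat.abs_cast]
  calc 2 * Real.pi * (j * |x.c i - x'.c i|) ≤ 2 * Real.pi * (j * (2 ^ d)⁻¹) := by gcongr
    _ = _ := by ring

/-- the approximations of the unitary section -/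
def wd (d p : ℕ) (x : Pt p) : Mt p := dg fun i => ex (⌊2 ^ d * x.c i⌋₊ / 2 ^ d)

theorem wd_InS (d : ℕ) : InS d (wd d) := by
  refine ⟨fun p hp x x' hx => ?_, fun p => (dg fun i => ex (((i : ℕ) / 2 ^ (p - d) : ℕ) / 2 ^ d),
    fun i => ex (((i : ℕ) / 2 ^ (p - d) : ℕ) / 2 ^ d)), fun p hp => ?_, fun p hp x => ?_⟩
  · rw [tr_eq_iff] at hx
    rw [wd, wd]
    congr 1
    funext i
    rw [hx i]
  · have h1 : (fun i : Fin (2 ^ (p + 1)) => ex (((i : ℕ) / 2 ^ (p + 1 - d) : ℕ) / 2 ^ d))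
        = fun s => (fun i : Fin (2 ^ p) => ex (((i : ℕ) / 2 ^ (p - d) : ℕ) / 2 ^ d)) (par s) := by
      funext s
      change _ = ex (((s / 2 : ℕ) / 2 ^ (p - d) : ℕ) / 2 ^ d)
      rw [Nat.div_div_eq_div_mul, ← pow_succ', show p - d + 1 = p + 1 - d by omega]
    beta_reduce
    rw [jk, jm_dg, h1]
  · rw [wd]
    change _ = dg _
    congr 1
    funext i
    rw [floor_half hp, floor_self]

theorem norm_wd_le (d p : ℕ) (x : Pt p) : ‖wd d p x‖ ≤ 1 :=
  norm_dg_le _ fun i => (norm_ex _).le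

theorem wd_dist (d p : ℕ) (x : Pt p) : ‖wm p x - wd d p x‖ ≤ 2 * Real.pi * (2 ^ d)⁻¹ := by
  rw [wm, wd]
  refine norm_dg_sub_le _ _ (by positivity) fun i => ?_
  refine (ex_sub_le _ _).trans ?_
  have h0 : (0 : ℝ) < 2 ^ d := by positivity
  have h1 := Nat.floor_le (show 0 ≤ 2 ^ d * x.c i by have := x.nonneg i; positivity)
  have h2 := Nat.lt_floor_add_one (2 ^ d * x.c i)
  have h3 : |x.c i - ⌊2 ^ d * x.c i⌋₊ / 2 ^ d| ≤ (2 ^ d)⁻¹ := by
    have h4 : x.c i - ⌊2 ^ d * x.c i⌋₊ / 2 ^ d = (2 ^ d * x.c i - ⌊2 ^ d * x.c i⌋₊) / 2 ^ d := by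
      field_simp
    rw [h4, abs_div, abs_of_pos h0, inv_eq_one_div]
    gcongr
    rw [abs_le]
    constructor <;> linarith
  gcongr

theorem pow_two_inv_small {ε : ℝ} (hε : 0 < ε) (C : ℝ) : ∃ d : ℕ, ∀ e ≥ d, C * (2 ^ e)⁻¹ ≤ ε := by
  have h : Filter.Tendsto (fun e : ℕ => C * ((2 : ℝ) ^ e)⁻¹) Filter.atTop (nhds (C * 0)) := by
    refine Filter.Tendsto.const_mul _ ?_
    have := tendsto_pow_atTop_nhds_zero_of_lt_one (r := (1 / 2 : ℝ)) (by norm_num) (by norm_num)
    simpa using this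
  rw [mul_zero] at h
  have h2 := (h.eventually (ge_mem_nhds hε))
  rw [Filter.eventually_atTop] at h2
  exact h2

/-- the unitary -/
def wA : AA := ⟨mkA wm 1 fun p x => by simpa using norm_wm_pow_le p x 1, by
  rw [mem_AAs]
  intro ε hε
  obtain ⟨d, hd⟩ := pow_two_inv_small hε (2 * Real.pi)
  refine ⟨mkA (wd d) 1 (norm_wd_le d), ⟨d, wd_InS d⟩, Am.norm_le hε.le fun p x => ?_⟩
  exact (wd_dist d p x).trans (hd d le_rfl)⟩

@[simp] theorem ev_wA (p : ℕ) (x : Pt p) : ev p x wA = wm p x := rfl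

theorem wA_star_mul : star wA * wA = 1 := AA.ext fun p x => by
  rw [map_mul, map_star, map_one, ev_wA, wm_star_mul]

theorem wA_mul_star : wA * star wA = 1 := AA.ext fun p x => by
  rw [map_mul, map_star, map_one, ev_wA, wm_mul_star]

/-- the automorphism -/
def al : AA →⋆ₙₐ[ℂ] AA where
  toFun a := wA * a * star wA
  map_smul' c a := by simp
  map_zero' := by simp
  map_add' a b := by rw [mul_add, add_mul]
  map_mul' a b := by
    rw [show wA * a * star wA * (wA * b * star wA) = wA * a * (star wA * wA) * b * star wA by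
      simp only [mul_assoc], wA_star_mul, mul_one, mul_assoc, mul_assoc, mul_assoc, mul_assoc]
  map_star' a := by simp [mul_assoc]

theorem al_apply (a : AA) : al a = wA * a * star wA := rfl

theorem al_iter (j : ℕ) (a : AA) : (al^[j]) a = wA ^ j * a * star (wA ^ j) := by
  induction j with
  | zero => simp
  | succ j ih =>
    rw [Function.iterate_succ_apply', ih, al_apply, pow_succ']
    simp [mul_assoc]

theorem ev_al_iter (j : ℕ) (a : AA) (p : ℕ) (x : Pt p) :
    ev p x ((al^[j]) a) = wm p x ^ j * ev p x a * star (wm p x ^ j) := by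
  rw [al_iter, map_mul, map_mul, map_star, map_pow, ev_wA]

/-- the section `v` -/
def vm (p : ℕ) : Mt p := Matrix.of fun i j =>
  match i, j with
  | some _, none => r2 ^ p
  | _, _ => 0

theorem io_vm (p : ℕ) : jm p (vm p, 0) = vm (p + 1) := by
  have h0 : (Matrix.diagonal (0 : Fin (2 ^ p) → ℂ)) = 0 := Matrix.diagonal_zero
  rw [jm, h0, Matrix.mul_zero, Matrix.zero_mul, add_zero]
  ext s t
  rw [Matrix.mul_apply, Fintype.sum_option]
  have h1 : ∀ j, (io p * vm p) s (some j) = 0 := by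
    intro j
    rw [Matrix.mul_apply]
    refine Finset.sum_eq_zero fun i _ => ?_
    rcases i with _ | i <;> simp [vm]
  have h2 : (io p * vm p) s none = vm (p + 1) s none := by
    rw [Matrix.mul_apply, Fintype.sum_option]
    rcases s with _ | s
    · simp [vm]
    · rw [Finset.sum_eq_single (par s)]
      · simp [vm, io_ss, pow_succ']
      · intro i _ hi
        simp [io_ss, Ne.symm hi]
      · simp
  simp only [h1, h2, zero_mul, Finset.sum_const_zero, add_zero]
  rcases t with _ | t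
  · simp [Matrix.conjTranspose_apply]
  · rcases s with _ | s <;> simp [Matrix.conjTranspose_apply, vm]

/-- the rank one projection -/
def pm (p : ℕ) : Mt p := Matrix.single none none 1

theorem io_pm (p : ℕ) : jm p (pm p, 0) = pm (p + 1) := by
  have h0 : (Matrix.diagonal (0 : Fin (2 ^ p) → ℂ)) = 0 := Matrix.diagonal_zero
  rw [jm, h0, Matrix.mul_zero, Matrix.zero_mul, add_zero]
  ext s t
  rw [Matrix.mul_apply, Fintype.sum_option]
  have h1 : ∀ j, (io p * pm p) s (some j) = 0 := by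
    intro j
    rw [Matrix.mul_apply]
    refine Finset.sum_eq_zero fun i _ => ?_
    simp [pm, Matrix.single_apply]
  have h2 : (io p * pm p) s none = pm (p + 1) s none := by
    rw [Matrix.mul_apply, Fintype.sum_option]
    rcases s with _ | s
    · simp [pm, Matrix.single_apply]
    · simp [pm, Matrix.single_apply]
  simp only [h1, h2, zero_mul, Finset.sum_const_zero, add_zero]
  rcases t with _ | t
  · simp [Matrix.conjTranspose_apply]
  · rcases s with _ | s <;> simp [Matrix.conjTranspose_apply, pm, Matrix.single_apply]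

theorem vm_InS : InS 0 fun p _ => vm p := by
  refine ⟨fun p hp x x' hx => rfl, fun p => (vm p, 0), fun p hp => ?_, fun p hp x => rfl⟩
  beta_reduce
  rw [jk, io_vm]
  rfl

theorem pm_InS : InS 0 fun p _ => pm p := by
  refine ⟨fun p hp x x' hx => rfl, fun p => (pm p, 0), fun p hp => ?_, fun p hp x => rfl⟩
  beta_reduce
  rw [jk, io_pm]
  rfl

theorem norm_r2_sq : ‖r2‖ ^ 2 = 1 / 2 := by
  have h : ‖r2 * r2‖ = ‖(1 / 2 : ℂ)‖ := by rw [r2_mul]
  rw [norm_mul] at h
  rw [sq, h]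
  simp

theorem vm_star_mul (p : ℕ) : star (vm p) * vm p = pm p := by
  ext i j
  rw [Matrix.mul_apply, Fintype.sum_option]
  rcases i with _ | i <;> rcases j with _ | j
  · simp only [Matrix.star_apply, vm, Matrix.of_apply, star_zero, mul_zero, zero_add, pm,
      Matrix.single_apply_same, star_pow, star_r2, Finset.sum_const, Finset.card_univ,
      Fintype.card_fin, nsmul_eq_mul]
    rw [← mul_pow, r2_mul]
    push_cast
    rw [← mul_pow]
    norm_num
  · simp [Matrix.star_apply, vm, pm]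
  · simp [Matrix.star_apply, vm, pm]
  · simp [Matrix.star_apply, vm, pm]

theorem pm_star_mul (p : ℕ) : star (pm p) * pm p = pm p := by
  ext i j
  rw [Matrix.mul_apply, Fintype.sum_option]
  rcases i with _ | i <;> rcases j with _ | j <;>
    simp [Matrix.star_apply, pm, Matrix.single_apply]

theorem norm_pm_le (p : ℕ) : ‖pm p‖ ≤ 1 := by
  have h : ‖star (pm p) * pm p‖ = ‖pm p‖ * ‖pm p‖ := CStarRing.norm_star_mul_self
  rw [pm_star_mul] at h
  by_contra hc
  push Not at hc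
  nlinarith

theorem norm_vm_le (p : ℕ) : ‖vm p‖ ≤ 1 := by
  have h : ‖star (vm p) * vm p‖ = ‖vm p‖ * ‖vm p‖ := CStarRing.norm_star_mul_self
  rw [vm_star_mul] at h
  have h2 := norm_pm_le p
  by_contra hc
  push Not at hc
  nlinarith

/-- the partial isometry -/
def vA : AA := ⟨mkA (fun p _ => vm p) 1 fun p x => norm_vm_le p, Sinf_le ⟨0, vm_InS⟩⟩

/-- the projection -/
def pA : AA := ⟨mkA (fun p _ => pm p) 1 fun p x => norm_pm_le p, Sinf_le ⟨0, pm_InS⟩⟩

@[simp] theorem ev_vA (p : ℕ) (x : Pt p) : ev p x vA = vm p := rfl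
@[simp] theorem ev_pA (p : ℕ) (x : Pt p) : ev p x pA = pm p := rfl

theorem vA_star_mul : star vA * vA = pA := AA.ext fun p x => by
  rw [map_mul, map_star, ev_vA, ev_pA, vm_star_mul]

end Pool.Agent.W659.EC
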