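import Pool.Agent.W659.EC.Ub

/-! Entropy from growth rates; the Brown–Voiculescu entropy is zero. -/

set_option autoImplicit false
set_option linter.unusedVariables false

open scoped Matrix.Norms.L2Operator ENNReal Matrix

noncomputable section

namespace Pool.Agent.W659.EC

section

variable {A : Type} [NonUnitalCStarAlgebra A]

theorem entropy_nonpos (R : Set A → ℝ → ℕ → Prop) (α : A →⋆ₙₐ[ℂ] A)
    (h : ∀ (F : Finset A) (ε : ℝ), 0 < ε →
      ∃ K M : ℕ, ∀ n ≥ 1, ∃ r, R (orb α F n) ε r ∧ r ≤ K * n ^ M) : entropy R α ≤ 0 := by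
  refine iSup_le fun F => iSup_le fun ε => iSup_le fun hε => ?_
  obtain ⟨K, M, hKM⟩ := h F ε hε
  have ht : Filter.Tendsto (fun n : ℕ => (((Real.log (K + 1) + M * Real.log n) / n : ℝ) : EReal))
      Filter.atTop (nhds ((0 : ℝ) : EReal)) := by
    refine (continuous_coe_real_ereal.tendsto 0).comp ?_
    have h1 : Filter.Tendsto (fun n : ℕ => Real.log (K + 1) / n) Filter.atTop (nhds 0) :=
      tendsto_const_div_atTop_nhds_zero_nat _
    have h2 : Filter.Tendsto (fun n : ℕ => Real.log n / n) Filter.atTop (nhds 0) :=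
      (Real.isLittleO_log_id_atTop.tendsto_div_nhds_zero).comp tendsto_natCast_atTop_atTop
    have h3 := h1.add (h2.const_mul (M : ℝ))
    rw [mul_zero, add_zero] at h3
    refine h3.congr fun n => ?_
    ring
  have h0 := ht.limsup_eq
  rw [EReal.coe_zero] at h0
  rw [← h0]
  refine Filter.limsup_le_limsup ?_
  filter_upwards [Filter.eventually_ge_atTop 1] with n hn
  obtain ⟨r, hr, hrK⟩ := hKM n hn
  have hn0 : (0 : ℝ) < n := by exact_mod_cast hn
  rw [EReal.coe_div]
  refine EReal.div_le_div_right_of_nonneg (by exact_mod_cast hn0.le) ?_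
  have h4 : (⨅ (r : ℕ) (_ : R (orb α F n) ε r), (r : ℝ≥0∞))
      ≤ ENNReal.ofReal ((K + 1) * (n : ℝ) ^ M) := by
    refine (iInf₂_le r hr).trans ?_
    rw [← ENNReal.ofReal_natCast]
    refine ENNReal.ofReal_le_ofReal ?_
    have h5 : (r : ℝ) ≤ K * (n : ℝ) ^ M := by exact_mod_cast hrK
    have h6 : (0 : ℝ) ≤ (n : ℝ) ^ M := by positivity
    nlinarith
  refine (ENNReal.log_le_log h4).trans ?_
  rw [ENNReal.log_ofReal_of_pos (by positivity), Real.log_mul (by positivity) (by positivity),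
    Real.log_pow]

theorem le_entropy (R : Set A → ℝ → ℕ → Prop) (α : A →⋆ₙₐ[ℂ] A) (F : Finset A) (ε : ℝ)
    (hε : 0 < ε) (c : ℝ) (h : ∀ N : ℕ, ∃ n ≥ N, 1 ≤ n ∧ ∀ r, R (orb α F n) ε r →
      0 < r ∧ n * c ≤ Real.log r) : (c : EReal) ≤ entropy R α := by
  refine le_trans ?_ (le_iSup_of_le F (le_iSup_of_le ε (le_iSup_of_le hε le_rfl)))
  refine Filter.le_limsup_of_frequently_le' ?_
  rw [Filter.frequently_atTop]
  intro N
  obtain ⟨n, hn, hn1, h2⟩ := h N
  refine ⟨n, hn, ?_⟩
  have hn0 : (0 : ℝ) < n := by exact_mod_cast hn1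
  have h3 : ENNReal.ofReal (Real.exp (n * c)) ≤
      (⨅ (r : ℕ) (_ : R (orb α F n) ε r), (r : ℝ≥0∞)) := by
    refine le_iInf₂ fun r hr => ?_
    obtain ⟨h4, h5⟩ := h2 r hr
    rw [← ENNReal.ofReal_natCast]
    refine ENNReal.ofReal_le_ofReal ?_
    rwa [← Real.le_log_iff_exp_le (by exact_mod_cast h4)]
  have h4 := ENNReal.log_le_log h3
  rw [ENNReal.log_ofReal_of_pos (Real.exp_pos _), Real.log_exp] at h4
  have h5 : (c : EReal) = ((n * c : ℝ) : EReal) / ((n : ℝ) : EReal) := by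
    rw [← EReal.coe_div]
    congr 1
    field_simp
  rw [h5]
  exact EReal.div_le_div_right_of_nonneg (by exact_mod_cast hn0.le) h4

end

theorem one_mem_orb (n : ℕ) (hn : 1 ≤ n) (F : Finset AA) (a : AA) (ha : a ∈ F) :
    a ∈ orb al F n := ⟨0, hn, a, ha, rfl⟩

instance : Nontrivial AA := by
  refine ⟨⟨1, 0, fun h => ?_⟩⟩
  have h2 := congrArg (ev 0 default) h
  rw [map_one, map_zero] at h2
  exact one_ne_zero h2

theorem ht_nonneg : 0 ≤ ht al := by
  have h : ((0 : ℝ) : EReal) ≤ entropy (HasCPA AA) al := by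
    refine le_entropy _ _ {1} (1 / 2) (by norm_num) 0 fun N => ⟨N + 1, by omega, by omega, ?_⟩
    rintro r ⟨F, hF, ψ, φ, hψ, hφ, h⟩
    have h1 := h 1 (one_mem_orb _ (by omega) _ 1 (Finset.mem_singleton_self _))
    have h0 : 0 < r := by
      by_contra hc
      have hr : F.rank = 0 := by omega
      rw [FDA.rank, Finset.sum_eq_zero_iff] at hr
      have h2 : ψ 1 = 0 := by
        funext i
        have h3 := hr i (Finset.mem_univ _)
        rw [Fintype.card_eq_zero_iff] at h3
        ext a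
        exact h3.elim a
      rw [h2, map_zero, zero_sub, norm_neg, CStarRing.norm_one] at h1
      norm_num at h1
    refine ⟨h0, ?_⟩
    rw [mul_zero]
    exact Real.log_natCast_nonneg r
  rwa [EReal.coe_zero] at h

theorem ht_al : ht al = 0 :=
  le_antisymm (entropy_nonpos _ _ fun F ε hε => poly_growth F ε hε) ht_nonneg

end Pool.Agent.W659.EC
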