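import Pool.Agent.W659.EC.El

/-! Extension of sections by sampling. -/

set_option autoImplicit false
set_option linter.unusedVariables false

open scoped Matrix.Norms.L2Operator ENNReal Matrix

noncomputable section

namespace Pool.Agent.W659.EC

/-- extend the levels `≤ q` of a section by sampling -/
def extq (q : ℕ) (g : ∀ p, Pt p → Mt p) : ∀ p, Pt p → Mt p
  | 0 => g 0
  | p + 1 => if p + 1 ≤ q then g (p + 1) else fun x => av p fun a => extq q g p (smp x a)

theorem extq_le {q p : ℕ} (h : p ≤ q) (g : ∀ p, Pt p → Mt p) : extq q g p = g p := by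
  cases p with
  | zero => rfl
  | succ p => rw [extq, if_pos h]

theorem extq_succ {q p : ℕ} (h : q ≤ p) (g : ∀ p, Pt p → Mt p) (x : Pt (p + 1)) :
    extq q g (p + 1) x = av p fun a => extq q g p (smp x a) := by
  rw [extq, if_neg (by omega)]

theorem extq_ind {q : ℕ} {P : ∀ p, Pt p → Prop} (h1 : ∀ p ≤ q, ∀ x, P p x)
    (h2 : ∀ p ≥ q, (∀ x, P p x) → ∀ x, P (p + 1) x) (p : ℕ) (x : Pt p) : P p x := by
  revert x
  induction p with
  | zero => exact h1 0 (Nat.zero_le _)
  | succ p ih =>
    rcases le_or_gt (p + 1) q with h | h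
    · exact h1 _ h
    · exact h2 p (by omega) ih

theorem norm_extq_le {q : ℕ} (g : ∀ p, Pt p → Mt p) {C : ℝ} (hC : 0 ≤ C)
    (h : ∀ p ≤ q, ∀ x, ‖g p x‖ ≤ C) (p : ℕ) (x : Pt p) : ‖extq q g p x‖ ≤ C := by
  refine extq_ind (q := q) (P := fun p x => ‖extq q g p x‖ ≤ C) (fun p hp x => ?_) (fun p hp ih x => ?_) p x
  · rw [extq_le hp]; exact h p hp x
  · rw [extq_succ hp]
    exact norm_av_le _ _ _ hC fun a => ih _

theorem extq_sub {q : ℕ} (g g' : ∀ p, Pt p → Mt p) (p : ℕ) (x : Pt p) :
    extq q (fun p x => g p x - g' p x) p x = extq q g p x - extq q g' p x := by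
  refine extq_ind (q := q) (P := fun p x => extq q (fun p x => g p x - g' p x) p x
    = extq q g p x - extq q g' p x) (fun p hp x => ?_) (fun p hp ih x => ?_) p x
  · rw [extq_le hp, extq_le hp, extq_le hp]
  · rw [extq_succ hp, extq_succ hp, extq_succ hp]
    simp only [ih]
    exact map_sub (avL p) (fun a => extq q g p (smp x a)) (fun a => extq q g' p (smp x a))

theorem extq_add {q : ℕ} (g g' : ∀ p, Pt p → Mt p) (p : ℕ) (x : Pt p) :
    extq q (fun p x => g p x + g' p x) p x = extq q g p x + extq q g' p x := by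
  refine extq_ind (q := q) (P := fun p x => extq q (fun p x => g p x + g' p x) p x
    = extq q g p x + extq q g' p x) (fun p hp x => ?_) (fun p hp ih x => ?_) p x
  · rw [extq_le hp, extq_le hp, extq_le hp]
  · rw [extq_succ hp, extq_succ hp, extq_succ hp]
    simp only [ih]
    exact map_add (avL p) (fun a => extq q g p (smp x a)) (fun a => extq q g' p (smp x a))

theorem extq_smul {q : ℕ} (c : ℂ) (g : ∀ p, Pt p → Mt p) (p : ℕ) (x : Pt p) :
    extq q (fun p x => c • g p x) p x = c • extq q g p x := by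
  refine extq_ind (q := q) (P := fun p x => extq q (fun p x => c • g p x) p x
    = c • extq q g p x) (fun p hp x => ?_) (fun p hp ih x => ?_) p x
  · rw [extq_le hp, extq_le hp]
  · rw [extq_succ hp, extq_succ hp]
    simp only [ih]
    exact map_smul (avL p) c (fun a => extq q g p (smp x a))

theorem extq_one {q : ℕ} (g : ∀ p, Pt p → Mt p) (h : ∀ p ≤ q, ∀ x, g p x = 1) (p : ℕ)
    (x : Pt p) : extq q g p x = 1 := by
  refine extq_ind (q := q) (P := fun p x => extq q g p x = 1) (fun p hp x => ?_)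
    (fun p hp ih x => ?_) p x
  · rw [extq_le hp, h p hp]
  · rw [extq_succ hp]
    simp only [ih]
    exact av_one p

theorem pow_inter {n m : Type} [Fintype n] [DecidableEq n] [Fintype m] [DecidableEq m]
    (W : Matrix n n ℂ) (V : Matrix n m ℂ) (U : Matrix m m ℂ) (h : W * V = V * U) (j : ℕ) :
    W ^ j * V = V * U ^ j := by
  induction j with
  | zero => simp
  | succ j ih =>
    rw [pow_succ, pow_succ, Matrix.mul_assoc, h, ← Matrix.mul_assoc, ih, Matrix.mul_assoc]

theorem wm_pow_Va (p : ℕ) (x : Pt (p + 1)) (a : Fin (2 ^ p) → Bool) (j : ℕ) :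
    wm (p + 1) x ^ j * Va p a = Va p a * wm p (smp x a) ^ j :=
  pow_inter _ _ _ (wm_Va p x a) j

/-- equivariance -/
theorem extq_conj {q : ℕ} (j : ℕ) (g : ∀ p, Pt p → Mt p) (p : ℕ) (x : Pt p) :
    extq q (fun p x => wm p x ^ j * g p x * star (wm p x ^ j)) p x
      = wm p x ^ j * extq q g p x * star (wm p x ^ j) := by
  refine extq_ind (q := q) (P := fun p x => extq q (fun p x => wm p x ^ j * g p x * star (wm p x ^ j)) p x
      = wm p x ^ j * extq q g p x * star (wm p x ^ j)) (fun p hp x => ?_) (fun p hp ih x => ?_) p x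
  · rw [extq_le hp, extq_le hp]
  · rw [extq_succ hp, extq_succ hp]
    simp only [ih]
    rw [av, av, Matrix.mul_smul, Matrix.smul_mul, Matrix.mul_sum, Matrix.sum_mul]
    congr 1
    refine Finset.sum_congr rfl fun a _ => ?_
    have h1 : (Va p a)ᴴ * star (wm (p + 1) x ^ j) = star (wm p (smp x a) ^ j) * (Va p a)ᴴ := by
      have h2 := congrArg Matrix.conjTranspose (wm_pow_Va p x a j)
      rw [Matrix.conjTranspose_mul, Matrix.conjTranspose_mul] at h2
      exact h2
    calc Va p a * (wm p (smp x a) ^ j * extq q g p (smp x a) * star (wm p (smp x a) ^ j))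
          * (Va p a)ᴴ
        = (Va p a * wm p (smp x a) ^ j) * extq q g p (smp x a)
          * (star (wm p (smp x a) ^ j) * (Va p a)ᴴ) := by simp only [Matrix.mul_assoc]
      _ = (wm (p + 1) x ^ j * Va p a) * extq q g p (smp x a)
          * ((Va p a)ᴴ * star (wm (p + 1) x ^ j)) := by rw [h1, wm_pow_Va]
      _ = _ := by simp only [Matrix.mul_assoc]

theorem diag_jm (p : ℕ) (T : Mt p) (h : Fin (2 ^ p) → ℂ) (hh : ∀ i, h i = T (some i) (some i))
    (s : Fin (2 ^ (p + 1))) : h (par s) = jm p (T, h) (some s) (some s) := by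
  rw [jm_diag]
  simp only [← hh]
  ring

/-- sections which are constant at some level and are extended by sampling -/
theorem const_ext (h : ∀ p, Pt p → Mt p) (D : ℕ) (T : Mt D) (hD : ∀ x, h D x = T)
    (hs : ∀ p ≥ D, ∀ x, h (p + 1) x = av p fun a => h p (smp x a)) {p : ℕ} (hp : D ≤ p) :
    (∀ x, h p x = (kseq D (T, fun i => T (some i) (some i)) p).1) ∧
      ∀ i, (kseq D (T, fun i => T (some i) (some i)) p).2 i
        = (kseq D (T, fun i => T (some i) (some i)) p).1 (some i) (some i) := by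
  induction p, hp using Nat.le_induction with
  | base => rw [kseq_self]; exact ⟨hD, fun i => rfl⟩
  | succ p hp ih =>
    obtain ⟨ih1, ih2⟩ := ih
    rw [kseq_succ hp]
    set k := kseq D (T, fun i => T (some i) (some i)) p with hk
    have h2 : k = (k.1, fun i => k.1 (some i) (some i)) := Prod.ext rfl (funext ih2)
    constructor
    · intro x
      rw [hs p hp]
      simp only [ih1]
      rw [av_const, ← h2]
      rfl
    · intro s
      exact diag_jm p k.1 k.2 ih2 s

/-- extended sections have finite depth -/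
theorem extq_InS {q D : ℕ} (hqD : q ≤ D) (g : ∀ p, Pt p → Mt p)
    (hg : ∀ p ≤ q, ∀ x x' : Pt p, tr D x = tr D x' → g p x = g p x') : InS D (extq q g) := by
  have h1 : ∀ p, ∀ x x' : Pt p, tr D x = tr D x' → extq q g p x = extq q g p x' := by
    intro p x x'
    revert x'
    refine extq_ind (q := q) (P := fun p x => ∀ x', tr D x = tr D x' → extq q g p x = extq q g p x')
      (fun p hp x x' hx => ?_) (fun p hp ih x x' hx => ?_) p x
    · rw [extq_le hp]; exact hg p hp x x' hx
    · rw [extq_succ hp, extq_succ hp]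
      congr 1
      funext a
      exact ih _ _ (tr_smp hx a)
  refine ⟨fun p _ => h1 p, kseq D (extq q g D default,
    fun i => extq q g D default (some i) (some i)), fun p hp => kseq_succ hp _, fun p hp => ?_⟩
  exact (const_ext (extq q g) D (extq q g D default) (fun x => h1 D x default (tr_self _ _))
    (fun p hp x => extq_succ (hqD.trans hp) g x) hp).1

theorem half_diag {d : ℕ} (k : ∀ p, Kp p) (hk : ∀ p ≥ d, k (p + 1) = jk p (k p)) {C : ℝ}
    (hC : ∀ i, ‖(k d).2 i - (k d).1 (some i) (some i)‖ ≤ C) {p : ℕ} (hp : d ≤ p) :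
    ∀ i, ‖(k p).2 i - (k p).1 (some i) (some i)‖ ≤ C * (2 ^ (p - d))⁻¹ := by
  induction p, hp using Nat.le_induction with
  | base => simpa using hC
  | succ p hp ih =>
    intro s
    rw [hk p hp]
    change ‖(k p).2 (par s) - jm p (k p) (some s) (some s)‖ ≤ _
    rw [jm_diag]
    have h1 : (k p).2 (par s) - ((k p).1 (some (par s)) (some (par s)) + (k p).2 (par s)) / 2
        = ((k p).2 (par s) - (k p).1 (some (par s)) (some (par s))) / 2 := by ring
    rw [h1, norm_div, show p + 1 - d = p - d + 1 by omega, pow_succ, mul_inv, ← mul_assoc]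
    have h2 := ih (par s)
    have h3 : ‖(2 : ℂ)‖ = 2 := by simp
    rw [h3, div_eq_mul_inv]
    gcongr

/-- for sections of finite depth the extension converges -/
theorem extq_conv {d : ℕ} {f : ∀ p, Pt p → Mt p} (hf : InS d f) {ε : ℝ} (hε : 0 < ε) :
    ∃ q0, ∀ q ≥ q0, ∀ p x, ‖extq q f p x - f p x‖ ≤ ε := by
  obtain ⟨h1, k, h2, h3⟩ := hf
  obtain ⟨C, hC⟩ : ∃ C : ℝ, ∀ i, ‖(k d).2 i - (k d).1 (some i) (some i)‖ ≤ C :=
    ⟨_, fun i => norm_le_pi_norm (fun i => (k d).2 i - (k d).1 (some i) (some i)) i⟩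
  obtain ⟨e, he⟩ := pow_two_inv_small hε C
  refine ⟨d + e, fun q hq p x => ?_⟩
  rcases le_total p q with hp | hp
  · rw [extq_le hp, sub_self, norm_zero]; exact hε.le
  · have h4 := (const_ext (extq q f) q (k q).1 (fun x => by
      rw [extq_le le_rfl, h3 q (by omega)]) (fun p hp x => extq_succ hp f x) hp).1 x
    have h5 : k p = kseq q (k q) p :=
      (kseq_eq hp k fun p hp => h2 p (by omega)).symm
    obtain ⟨H, hH⟩ := kseq_hom (d := q) (p := p) hp
    rw [h4, h3 p (by omega), h5, hH, hH]
    have h6 : (H ((k q).1, fun i => (k q).1 (some i) (some i))).1 - (H (k q)).1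
        = (H (((k q).1, fun i => (k q).1 (some i) (some i)) - k q)).1 := by
      rw [map_sub]; rfl
    rw [h6]
    refine (norm_fst_le _).trans ((NonUnitalStarAlgHom.norm_apply_le H _).trans ?_)
    rw [Prod.norm_def, max_le_iff]
    constructor
    · simp [hε.le]
    · rw [pi_norm_le_iff_of_nonneg hε.le]
      intro i
      change ‖(k q).1 (some i) (some i) - (k q).2 i‖ ≤ ε
      rw [norm_sub_rev]
      refine (half_diag k h2 hC (by omega : d ≤ q) i).trans (he _ (by omega))

theorem extq_convA (a : AA) {ε : ℝ} (hε : 0 < ε) :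
    ∃ q0, ∀ q ≥ q0, ∀ p x, ‖extq q (fun p x => ev p x a) p x - ev p x a‖ ≤ ε := by
  obtain ⟨d, b, hb, hab⟩ := a.approx (show 0 < ε / 3 by positivity)
  obtain ⟨q0, hq0⟩ := extq_conv hb (show 0 < ε / 3 by positivity)
  refine ⟨q0, fun q hq p x => ?_⟩
  have h1 := hq0 q hq p x
  have h2 : ‖extq q (fun p x => ev p x a - ev p x b) p x‖ ≤ ε / 3 :=
    norm_extq_le _ (by positivity) (fun p _ x => by
      rw [← map_sub]; exact ((a - b).norm_ev p x).trans hab) p x
  have h3 : ‖ev p x b - ev p x a‖ ≤ ε / 3 := by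
    rw [norm_sub_rev, ← map_sub]; exact ((a - b).norm_ev p x).trans hab
  rw [extq_sub] at h2
  have h4 : extq q (fun p x => ev p x a) p x - ev p x a
      = (extq q (fun p x => ev p x a) p x - extq q (fun p x => ev p x b) p x)
      + (extq q (fun p x => ev p x b) p x - ev p x b) + (ev p x b - ev p x a) := by abel
  rw [h4]
  refine (norm_add₃_le).trans ?_
  linarith

end Pool.Agent.W659.EC
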