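import Pool.Agent.W659.EC.Lb5

/-! Separability. -/

set_option autoImplicit false
set_option linter.unusedVariables false

open scoped Matrix.Norms.L2Operator ENNReal Matrix

noncomputable section

namespace Pool.Agent.W659.EC

instance : TopologicalSpace.SeparableSpace AA := by
  rw [← TopologicalSpace.isSeparable_univ_iff]
  have h1 : ∀ d : ℕ, TopologicalSpace.IsSeparable (Set.range (eF d)) := by
    intro d
    have : FiniteDimensional ℂ (FF d).alg := inferInstance
    have : ProperSpace (FF d).alg := FiniteDimensional.proper ℂ _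
    have hc : Continuous (eF d) :=
      ((eF d : (FF d).alg →ₐ[ℂ] AA).toLinearMap.mkContinuous 1 (fun x => by
        rw [one_mul]; exact NonUnitalStarAlgHom.norm_apply_le (eF d) x)).continuous
    exact TopologicalSpace.isSeparable_range hc
  have h2 : TopologicalSpace.IsSeparable (⋃ d, Set.range (eF d)) :=
    TopologicalSpace.IsSeparable.iUnion h1
  refine h2.closure.mono ?_
  intro a _
  rw [Metric.mem_closure_iff]
  intro ε hε
  obtain ⟨d, b, hb, hab⟩ := a.approx (half_pos hε)
  refine ⟨b, Set.mem_iUnion.2 ⟨d, psiF d b, eF_psiF d b hb⟩, ?_⟩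
  rw [dist_eq_norm]
  linarith

end Pool.Agent.W659.EC
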