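import Mathlib

/-! Counting: few labels cannot separate points of the cube into small balls. -/

set_option autoImplicit false
set_option linter.unusedVariables false

noncomputable section

namespace Pool.Agent.W659.EC

/-- the weight -/
def wt {k : ℕ} (z : Fin k → Bool) : ℕ := (Finset.univ.filter fun i => z i = true).card

theorem sum_wt (k : ℕ) : ∑ z : Fin k → Bool, (1 / 4 : ℝ) ^ wt z = (5 / 4 : ℝ) ^ k := by
  have h1 : ∀ z : Fin k → Bool, (1 / 4 : ℝ) ^ wt z = ∏ i, (if z i = true then (1 / 4 : ℝ) else 1) := by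
    intro z
    rw [Finset.prod_ite, Finset.prod_const, Finset.prod_const_one, mul_one]
    rfl
  simp only [h1]
  have h2 := Finset.prod_univ_sum (fun _ : Fin k => (Finset.univ : Finset Bool))
    (fun _ b => if b = true then (1 / 4 : ℝ) else 1)
  rw [Fintype.piFinset_univ] at h2
  rw [← h2]
  simp
  norm_num

/-- the ball -/
def ball (k : ℕ) : Finset (Fin k → Bool) := Finset.univ.filter fun z => 12 * wt z ≤ k

theorem card_ball (k : ℕ) : ((ball k).card : ℝ) ^ 2 ≤ 2 ^ k := by
  have h1 : ((ball k).card : ℝ) * (1 / 4) ^ (k / 12) ≤ (5 / 4) ^ k := by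
    rw [← sum_wt, ← nsmul_eq_mul, ← Finset.sum_const]
    refine (Finset.sum_le_sum fun z hz => ?_).trans
      (Finset.sum_le_univ_sum_of_nonneg (s := ball k) fun z => by positivity)
    have hz' : 12 * wt z ≤ k := (Finset.mem_filter.1 hz).2
    exact pow_le_pow_of_le_one (by norm_num) (by norm_num) (by omega)
  have h2 : ((ball k).card : ℝ) ≤ (5 / 4) ^ k * 4 ^ (k / 12) := by
    have h3 : (0 : ℝ) < 4 ^ (k / 12) := by positivity
    rw [one_div, inv_pow] at h1
    calc ((ball k).card : ℝ) = (ball k).card * (4 ^ (k / 12))⁻¹ * 4 ^ (k / 12) := by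
          field_simp
      _ ≤ _ := by gcongr
  have h3 : (((ball k).card : ℝ) ^ 2) ^ 6 ≤ (2 ^ k) ^ 6 := by
    calc (((ball k).card : ℝ) ^ 2) ^ 6 = ((ball k).card : ℝ) ^ 12 := by ring
      _ ≤ ((5 / 4) ^ k * 4 ^ (k / 12)) ^ 12 := by gcongr
      _ = ((5 / 4) ^ 12) ^ k * 4 ^ (k / 12 * 12) := by
        rw [mul_pow, ← pow_mul, ← pow_mul, ← pow_mul, mul_comm k 12]
      _ ≤ ((5 / 4) ^ 12) ^ k * 4 ^ k := by
        gcongr
        · norm_num
        · exact Nat.div_mul_le_self k 12
      _ = ((5 / 4) ^ 12 * 4) ^ k := by rw [mul_pow]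
      _ ≤ (2 ^ 6) ^ k := by
        gcongr
        norm_num
      _ = (2 ^ k) ^ 6 := by rw [← pow_mul, ← pow_mul, mul_comm]
  exact (pow_le_pow_iff_left₀ (by positivity) (by positivity) (by norm_num)).1 h3

/-- few labels cannot separate -/
theorem labels (k : ℕ) {L : Type} [Fintype L] (lab : (Fin k → Bool) → L)
    (h : ∀ y y', lab y = lab y' →
      12 * (Finset.univ.filter fun i => y i ≠ y' i).card ≤ k) :
    2 ^ k ≤ (Fintype.card L) ^ 2 := by
  classical
  have h1 : ∀ l : L, (Finset.univ.filter fun y => lab y = l).card ≤ (ball k).card := by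
    intro l
    rcases (Finset.univ.filter fun y => lab y = l).eq_empty_or_nonempty with he | ⟨y0, hy0⟩
    · rw [he]; simp
    · refine Finset.card_le_card_of_injOn (fun y i => xor (y i) (y0 i)) (fun y hy => ?_) ?_
      · have e1 : lab y = lab y0 := by
          rw [(Finset.mem_filter.1 hy0).2]
          exact (Finset.mem_filter.1 hy).2
        have e2 := h y y0 e1
        have e3 : (fun i => xor (y i) (y0 i)) ∈ ball k := by
          refine Finset.mem_filter.2 ⟨Finset.mem_univ _, ?_⟩
          have e4 : wt (fun i => xor (y i) (y0 i))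
              = (Finset.univ.filter fun i => y i ≠ y0 i).card := by
            rw [wt]
            congr 1
            ext i
            simp only [Finset.mem_filter, Finset.mem_univ, true_and]
            cases y i <;> cases y0 i <;> simp
          rw [e4]
          exact e2
        exact e3
      · intro y _ y' _ hyy
        funext i
        have := congrFun hyy i
        simpa using this
  have h2 : 2 ^ k ≤ Fintype.card L * (ball k).card := by
    calc 2 ^ k = (Finset.univ : Finset (Fin k → Bool)).card := by simp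
      _ = ∑ l : L, (Finset.univ.filter fun y => lab y = l).card :=
        Finset.card_eq_sum_card_fiberwise fun y _ => Finset.mem_univ _
      _ ≤ ∑ l : L, (ball k).card := Finset.sum_le_sum fun l _ => h1 l
      _ = _ := by simp
  have h3 : ((ball k).card) ^ 2 ≤ 2 ^ k := by exact_mod_cast card_ball k
  have h4 : 2 ^ k * 2 ^ k ≤ (Fintype.card L) ^ 2 * 2 ^ k := by
    calc 2 ^ k * 2 ^ k ≤ (Fintype.card L * (ball k).card) * (Fintype.card L * (ball k).card) :=
          Nat.mul_le_mul h2 h2
      _ = (Fintype.card L) ^ 2 * ((ball k).card) ^ 2 := by ring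
      _ ≤ _ := Nat.mul_le_mul_left _ h3
  exact Nat.le_of_mul_le_mul_right h4 (by positivity)

end Pool.Agent.W659.EC
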