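import Pool.Agent.W659.EC.Ent

/-! Columns; the label of a point. -/

set_option autoImplicit false
set_option linter.unusedVariables false

open scoped Matrix.Norms.L2Operator ENNReal Matrix

noncomputable section

namespace Pool.Agent.W659.EC

/-- the first column -/
def cO {p : ℕ} : Mt p →ₗ[ℂ] EuclideanSpace ℂ (Ix p) where
  toFun T := WithLp.toLp 2 fun i => T i none
  map_add' _ _ := rfl
  map_smul' _ _ := rfl

theorem cO_apply {p : ℕ} (T : Mt p) (i : Ix p) : cO T i = T i none := rfl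

theorem norm_cO_sq' {p : ℕ} (T : Mt p) : ‖cO T‖ ^ 2 = ∑ i, ‖T i none‖ ^ 2 := by
  rw [EuclideanSpace.norm_sq_eq]
  rfl

theorem star_mul_00 {p : ℕ} (T : Mt p) : (star T * T) none none = ((‖cO T‖ ^ 2 : ℝ) : ℂ) := by
  rw [norm_cO_sq', Matrix.mul_apply, Complex.ofReal_sum]
  refine Finset.sum_congr rfl fun i _ => ?_
  rw [Matrix.star_apply, Complex.star_def, ← Complex.normSq_eq_conj_mul_self,
    Complex.normSq_eq_norm_sq]

theorem norm_cO_mul {p : ℕ} (Z T : Mt p) : ‖cO (Z * T)‖ ≤ ‖Z‖ * ‖cO T‖ :=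
  Matrix.l2_opNorm_mulVec Z (cO T)

theorem norm_cO_one (p : ℕ) : ‖cO (1 : Mt p)‖ = 1 := by
  have h : ‖cO (1 : Mt p)‖ ^ 2 = 1 := by
    rw [norm_cO_sq', Fintype.sum_option]
    simp [Matrix.one_apply]
  have h2 := norm_nonneg (cO (1 : Mt p))
  nlinarith

theorem norm_cO_le {p : ℕ} (T : Mt p) : ‖cO T‖ ≤ ‖T‖ := by
  have := norm_cO_mul T 1
  rwa [mul_one, norm_cO_one, mul_one] at this

theorem norm_00_le {p : ℕ} (T : Mt p) : ‖T none none‖ ≤ ‖cO T‖ := by
  have h : ‖T none none‖ ^ 2 ≤ ‖cO T‖ ^ 2 := by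
    rw [norm_cO_sq']
    exact Finset.single_le_sum (f := fun i => ‖T i none‖ ^ 2) (fun i _ => by positivity)
      (Finset.mem_univ none)
  exact (sq_le_sq₀ (norm_nonneg _) (norm_nonneg _)).1 h

theorem cO_pm (p : ℕ) : cO (pm p) = cO 1 := by
  ext i
  rw [cO_apply, cO_apply]
  rcases i with _ | i <;> simp [pm]

theorem pm_mul_n {p : ℕ} (T : Mt p) (i : Ix p) :
    (pm p * T) i none = if i = none then T none none else 0 := by
  rw [Matrix.mul_apply, Finset.sum_eq_single none]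
  · rcases i with _ | i <;> simp [pm, Matrix.single_apply]
  · intro j _ hj
    simp [pm, Matrix.single_apply, Ne.symm hj]
  · simp

theorem dist_pm {p : ℕ} (T : Mt p) :
    ‖cO T - cO (pm p * T)‖ ^ 2 = ‖cO T‖ ^ 2 - ‖T none none‖ ^ 2 := by
  rw [← map_sub, norm_cO_sq', norm_cO_sq', Fintype.sum_option, Fintype.sum_option]
  simp only [Matrix.sub_apply, pm_mul_n, if_true, sub_self]
  simp

theorem orth_sum {p : ℕ} {L : Type} [Fintype L] (T : L → Mt p) (hs : ∀ m, star (T m) = T m)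
    (horth : ∀ l m, l ≠ m → T l * T m = 0) (c : L → ℂ) (Y : Mt p) :
    ‖cO ((∑ m, c m • T m) * Y)‖ ^ 2 = ∑ m, ‖c m‖ ^ 2 * ‖cO (T m * Y)‖ ^ 2 := by
  classical
  have h1 : star ((∑ m, c m • T m) * Y) * ((∑ m, c m • T m) * Y)
      = ∑ m, ((‖c m‖ ^ 2 : ℝ) : ℂ) • (star (T m * Y) * (T m * Y)) := by
    have h2 : star (∑ m, c m • T m) * (∑ m, c m • T m)
        = ∑ m, ((‖c m‖ ^ 2 : ℝ) : ℂ) • (star (T m) * T m) := by
      rw [star_sum, Finset.sum_mul_sum]
      refine Finset.sum_congr rfl fun l _ => ?_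
      rw [Finset.sum_eq_single l]
      · rw [star_smul, smul_mul_smul_comm, Complex.star_def, ← Complex.normSq_eq_conj_mul_self,
          Complex.normSq_eq_norm_sq]
      · intro m _ hm
        rw [star_smul, smul_mul_smul_comm, hs, horth l m (Ne.symm hm), smul_zero]
      · simp
    calc star ((∑ m, c m • T m) * Y) * ((∑ m, c m • T m) * Y)
        = star Y * (star (∑ m, c m • T m) * (∑ m, c m • T m)) * Y := by
          rw [star_mul]; simp only [mul_assoc]
      _ = ∑ m, ((‖c m‖ ^ 2 : ℝ) : ℂ) • (star (T m * Y) * (T m * Y)) := by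
          rw [h2, Finset.mul_sum, Finset.sum_mul]
          refine Finset.sum_congr rfl fun m _ => ?_
          rw [mul_smul_comm, smul_mul_assoc, star_mul]
          simp only [mul_assoc]
  have h3 := congrFun (congrFun h1 none) none
  rw [star_mul_00, Matrix.sum_apply] at h3
  simp only [Matrix.smul_apply, star_mul_00, smul_eq_mul, ← Complex.ofReal_mul,
    ← Complex.ofReal_sum] at h3
  exact Complex.ofReal_injective h3

/-- if `∑ λ_m T_m` is close to the rank one projection then one of the `T_m` is responsible -/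
theorem label {p : ℕ} {L : Type} [Fintype L] (N T : L → Mt p) (hT : ∀ m, T m = star (N m) * N m)
    (horth : ∀ l m, l ≠ m → T l * T m = 0) (hS : ‖∑ m, T m‖ ≤ 1) (lam : L → ℝ)
    (h0 : ∀ m, 0 ≤ lam m) (h1 : ∀ m, lam m ≤ 1) {ε : ℝ} (hε : 0 < ε) (hε1 : ε < 1 / 3)
    (hX : ‖∑ m, (lam m : ℂ) • T m - pm p‖ ≤ ε) : ∃ m, 1 - 3 * ε ≤ (T m none none).re := by
  classical
  by_contra hc
  push Not at hc
  have hs : ∀ m, star (T m) = T m := fun m => by rw [hT, star_mul, star_star]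
  have ht : ∀ m, T m none none = ((‖cO (N m)‖ ^ 2 : ℝ) : ℂ) := fun m => by
    rw [hT, star_mul_00]
  set t : L → ℝ := fun m => ‖cO (N m)‖ ^ 2 with htdef
  have htre : ∀ m, (T m none none).re = t m := fun m => by rw [ht, Complex.ofReal_re]
  have htn : ∀ m, ‖T m none none‖ = t m := fun m => by
    rw [ht, Complex.norm_real, Real.norm_eq_abs, abs_of_nonneg (by positivity)]
  have ht0 : ∀ m, 0 ≤ t m := fun m => by positivity
  set S := ∑ m, T m with hSdef
  set X := ∑ m, (lam m : ℂ) • T m with hXdef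
  have hS1 : S = ∑ m, (1 : ℂ) • T m := by simp [hSdef]
  have hTX : ∀ m, T m * X = (lam m : ℂ) • (T m * T m) := by
    intro m
    rw [hXdef, Finset.mul_sum, Finset.sum_eq_single m]
    · rw [mul_smul_comm]
    · intro l _ hl
      rw [mul_smul_comm, horth m l (Ne.symm hl), smul_zero]
    · simp
  have hXT : ∀ m, X * T m = (lam m : ℂ) • (T m * T m) := by
    intro m
    rw [hXdef, Finset.sum_mul, Finset.sum_eq_single m]
    · rw [smul_mul_assoc]
    · intro l _ hl
      rw [smul_mul_assoc, horth l m hl, smul_zero]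
    · simp
  have a1 : ∑ m, ‖cO (T m)‖ ^ 2 ≤ 1 := by
    have e1 := orth_sum T hs horth (fun _ => 1) 1
    simp only [mul_one, norm_one, one_pow, one_mul, one_smul] at e1
    rw [← e1]
    have e2 : ‖cO S‖ ≤ 1 := (norm_cO_le S).trans hS
    have e3 := norm_nonneg (cO S)
    nlinarith
  have a2 : (1 - ε) ^ 2 ≤ ∑ m, ‖cO (T m)‖ ^ 2 := by
    have e1 := orth_sum T hs horth (fun m => (lam m : ℂ)) 1
    simp only [mul_one] at e1
    have e2 : ∑ m, ‖(lam m : ℂ)‖ ^ 2 * ‖cO (T m)‖ ^ 2 ≤ ∑ m, ‖cO (T m)‖ ^ 2 := by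
      refine Finset.sum_le_sum fun m _ => ?_
      have e3 : ‖(lam m : ℂ)‖ ≤ 1 := by
        rw [Complex.norm_real, Real.norm_eq_abs, abs_of_nonneg (h0 m)]
        exact h1 m
      have e4 := norm_nonneg (lam m : ℂ)
      have e5 : ‖(lam m : ℂ)‖ ^ 2 ≤ 1 := by nlinarith
      have e6 : 0 ≤ ‖cO (T m)‖ ^ 2 := by positivity
      nlinarith
    have e7 : 1 - ε ≤ ‖cO X‖ := by
      have e8 : ‖cO (pm p)‖ ≤ ‖cO X‖ + ‖cO (X - pm p)‖ := by
        have : cO (pm p) = cO X - cO (X - pm p) := by rw [map_sub]; abel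
        rw [this]
        exact norm_sub_le _ _
      rw [cO_pm, norm_cO_one] at e8
      have e9 := (norm_cO_le (X - pm p)).trans hX
      linarith
    rw [← hXdef] at e1
    have e10 : 0 ≤ 1 - ε := by linarith
    nlinarith
  have a3 : ∑ m, ‖cO (T m * (1 - X))‖ ^ 2 ≤ ε ^ 2 := by
    have e1 := orth_sum T hs horth (fun _ => 1) (1 - X)
    simp only [norm_one, one_pow, one_mul, one_smul] at e1
    rw [← e1]
    have e2 : ‖cO (1 - X)‖ ≤ ε := by
      rw [map_sub, ← cO_pm, ← map_sub]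
      refine (norm_cO_le _).trans ?_
      rw [norm_sub_rev]
      exact hX
    have e3 := norm_cO_mul S (1 - X)
    have e4 := norm_nonneg (cO (1 - X))
    have e5 := norm_nonneg (cO (S * (1 - X)))
    have e6 := norm_nonneg S
    have e7 : ‖cO (S * (1 - X))‖ ≤ ε := by nlinarith
    gcongr
  have a4 : ∀ m, ‖cO (T m)‖ ^ 2 - t m ^ 2 ≤
      2 * ‖cO (T m * (1 - X))‖ ^ 2 + 2 * (ε ^ 2 * ‖cO (T m)‖ ^ 2) := by
    intro m
    rw [← htn m, ← dist_pm]
    have e1 : cO (T m) - cO (pm p * T m) = cO (T m * (1 - X)) + cO ((X - pm p) * T m) := by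
      rw [← map_sub, ← map_add]
      congr 1
      rw [mul_sub, mul_one, sub_mul, hTX, hXT]
      abel
    have e2 : ‖cO (T m) - cO (pm p * T m)‖ ≤ ‖cO (T m * (1 - X))‖ + ε * ‖cO (T m)‖ := by
      rw [e1]
      refine (norm_add_le _ _).trans ?_
      gcongr
      exact (norm_cO_mul _ _).trans (by gcongr)
    have e3 := norm_nonneg (cO (T m) - cO (pm p * T m))
    calc ‖cO (T m) - cO (pm p * T m)‖ ^ 2 ≤ (‖cO (T m * (1 - X))‖ + ε * ‖cO (T m)‖) ^ 2 := by
          gcongr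
      _ ≤ _ := by nlinarith [sq_nonneg (‖cO (T m * (1 - X))‖ - ε * ‖cO (T m)‖)]
  have a5 : ∑ m, ‖cO (T m)‖ ^ 2 - ∑ m, t m ^ 2 ≤ 4 * ε ^ 2 := by
    rw [← Finset.sum_sub_distrib]
    refine (Finset.sum_le_sum fun m _ => a4 m).trans ?_
    rw [Finset.sum_add_distrib, ← Finset.mul_sum, ← Finset.mul_sum, ← Finset.mul_sum]
    have e1 : ε ^ 2 * ∑ m, ‖cO (T m)‖ ^ 2 ≤ ε ^ 2 * 1 := by gcongr
    linarith
  have a6 : ∑ m, t m ≤ 1 := by
    have e1 : S none none = ((∑ m, t m : ℝ) : ℂ) := by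
      rw [hSdef, Matrix.sum_apply, Complex.ofReal_sum]
      exact Finset.sum_congr rfl fun m _ => ht m
    have e2 : ‖S none none‖ ≤ 1 := (norm_00_le S).trans ((norm_cO_le S).trans hS)
    rw [e1, Complex.norm_real, Real.norm_eq_abs,
      abs_of_nonneg (Finset.sum_nonneg fun m _ => ht0 m)] at e2
    exact e2
  have a7 : ∑ m, t m ^ 2 ≤ 1 - 3 * ε := by
    have e1 : ∑ m, t m ^ 2 ≤ ∑ m, (1 - 3 * ε) * t m := by
      refine Finset.sum_le_sum fun m _ => ?_
      have e2 := hc m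
      rw [htre] at e2
      have e3 := ht0 m
      nlinarith
    rw [← Finset.mul_sum] at e1
    have e4 : 0 ≤ 1 - 3 * ε := by linarith
    nlinarith
  nlinarith

end Pool.Agent.W659.EC
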