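import Pool.Agent.W659.EC.Lb3
import Pool.Agent.W659.EC.Lb1

/-! Fourier transform. -/

set_option autoImplicit false
set_option linter.unusedVariables false

open scoped Matrix.Norms.L2Operator ENNReal Matrix

noncomputable section

namespace Pool.Agent.W659.EC

theorem ex_eq_one {t : ℝ} (h : ex t = 1) : ∃ k : ℤ, t = k := by
  rw [ex, Complex.exp_eq_one_iff] at h
  obtain ⟨k, hk⟩ := h
  refine ⟨k, ?_⟩
  have h2 : (2 * Real.pi * Complex.I : ℂ) ≠ 0 := Complex.two_pi_I_ne_zero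
  have h3 : (2 * Real.pi * Complex.I : ℂ) * (t : ℂ) = (2 * Real.pi * Complex.I) * (k : ℂ) := by
    rw [hk]; ring
  have h4 := mul_left_cancel₀ h2 h3
  exact_mod_cast h4

theorem ex_int (k : ℤ) : ex k = 1 := by
  rw [ex, Complex.exp_eq_one_iff]
  exact ⟨k, by push_cast; ring⟩

theorem sum_ex {n : ℕ} (hn : 0 < n) (m : ℤ) (hm : ¬ (n : ℤ) ∣ m) :
    ∑ s : Fin n, ex (s * (m / n)) = 0 := by
  have hn' : (n : ℝ) ≠ 0 := by positivity
  have h1 : ex (m / n) ≠ 1 := by
    intro h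
    obtain ⟨k, hk⟩ := ex_eq_one h
    apply hm
    refine ⟨k, ?_⟩
    have : (m : ℝ) = n * k := by rw [← hk]; field_simp
    exact_mod_cast this
  rw [Fin.sum_univ_eq_sum_range (fun s => ex (s * (m / n)))]
  simp only [← ex_pow]
  rw [geom_sum_eq h1, ex_pow]
  have h2 : (n : ℝ) * (m / n) = m := by field_simp
  rw [h2, ex_int, sub_self, zero_div]

theorem not_dvd_sub {n u v : ℕ} (hu : u < n) (hv : v < n) (h : v ≠ u) :
    ¬ (n : ℤ) ∣ ((u : ℤ) - (v : ℤ)) := by
  rintro ⟨k, hk⟩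
  rcases lt_trichotomy k 0 with hk0 | hk0 | hk0
  · have : (n : ℤ) * k ≤ -n := by nlinarith
    omega
  · subst hk0
    simp at hk
    omega
  · have : (n : ℤ) ≤ n * k := by nlinarith
    omega

/-- the characters -/
def chi {n : ℕ} (s j : Fin n) : ℂ := ex (-((s : ℕ) * ((j : ℕ) / n)))

theorem chi_orth {n : ℕ} (hn : 0 < n) (j j' : Fin n) :
    ∑ s : Fin n, star (chi s j) * chi s j' = if j = j' then (n : ℂ) else 0 := by
  have h1 : ∀ s : Fin n, star (chi s j) * chi s j'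
      = ex (s * ((((j : ℕ) : ℤ) - ((j' : ℕ) : ℤ) : ℤ) / n)) := by
    intro s
    rw [chi, chi, ex_neg, neg_neg, ← ex_add]
    congr 1
    push_cast
    ring
  simp only [h1]
  by_cases h : j = j'
  · subst h
    simp [ex_zero]
  · rw [if_neg h]
    exact sum_ex hn _ (not_dvd_sub j.2 j'.2 fun hh => h (Fin.ext hh.symm))

/-- the discrete Fourier transform -/
def hat {B : Type} [AddCommGroup B] [Module ℂ B] {n : ℕ} (a : Fin n → B) (s : Fin n) : B :=
  ∑ j, chi s j • a j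

theorem parseval {B : Type} [Ring B] [StarRing B] [Algebra ℂ B] [StarModule ℂ B] {n : ℕ}
    (hn : 0 < n) (a : Fin n → B) :
    ∑ s, star (hat a s) * hat a s = (n : ℂ) • ∑ j, star (a j) * a j := by
  have h1 : ∀ s, star (hat a s) * hat a s
      = ∑ j, ∑ j', (star (chi s j) * chi s j') • (star (a j) * a j') := by
    intro s
    rw [hat, star_sum, Finset.sum_mul_sum]
    refine Finset.sum_congr rfl fun j _ => Finset.sum_congr rfl fun j' _ => ?_
    rw [star_smul, smul_mul_smul_comm]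
  simp only [h1]
  rw [Finset.sum_comm, Finset.smul_sum]
  refine Finset.sum_congr rfl fun j _ => ?_
  rw [Finset.sum_comm, Finset.sum_eq_single j]
  · rw [← Finset.sum_smul, chi_orth hn, if_pos rfl]
  · intro j' _ hj'
    rw [← Finset.sum_smul, chi_orth hn, if_neg (Ne.symm hj'), zero_smul]
  · simp

theorem hat_map {B B' : Type} [AddCommGroup B] [Module ℂ B] [AddCommGroup B'] [Module ℂ B']
    {n : ℕ} (φ : B →ₗ[ℂ] B') (a : Fin n → B) (s : Fin n) :
    φ (hat a s) = hat (fun j => φ (a j)) s := by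
  rw [hat, hat, map_sum]
  simp only [map_smul]

theorem hat_sub {B : Type} [AddCommGroup B] [Module ℂ B] {n : ℕ} (a b : Fin n → B) (s : Fin n) :
    hat a s - hat b s = hat (fun j => a j - b j) s := by
  rw [hat, hat, hat, ← Finset.sum_sub_distrib]
  simp only [smul_sub]

/-- Minkowski -/
theorem minkowski {E : Type} [SeminormedAddCommGroup E] {J : Type} (s : Finset J) (a b : J → E) :
    Real.sqrt (∑ j ∈ s, ‖a j‖ ^ 2) ≤
      Real.sqrt (∑ j ∈ s, ‖b j‖ ^ 2) + Real.sqrt (∑ j ∈ s, ‖b j - a j‖ ^ 2) := by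
  have hU : 0 ≤ ∑ j ∈ s, ‖b j‖ ^ 2 := Finset.sum_nonneg fun j _ => by positivity
  have hV : 0 ≤ ∑ j ∈ s, ‖b j - a j‖ ^ 2 := Finset.sum_nonneg fun j _ => by positivity
  rw [Real.sqrt_le_left (by positivity)]
  have h1 : ∑ j ∈ s, ‖a j‖ ^ 2 ≤ ∑ j ∈ s, (‖b j‖ + ‖b j - a j‖) ^ 2 := by
    refine Finset.sum_le_sum fun j _ => ?_
    have : ‖a j‖ ≤ ‖b j‖ + ‖b j - a j‖ := by
      have e1 : a j = b j - (b j - a j) := by abel
      conv_lhs => rw [e1]
      exact norm_sub_le _ _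
    gcongr
  have h2 : ∑ j ∈ s, (‖b j‖ + ‖b j - a j‖) ^ 2
      = ∑ j ∈ s, ‖b j‖ ^ 2 + 2 * ∑ j ∈ s, ‖b j‖ * ‖b j - a j‖ + ∑ j ∈ s, ‖b j - a j‖ ^ 2 := by
    rw [Finset.mul_sum, ← Finset.sum_add_distrib, ← Finset.sum_add_distrib]
    refine Finset.sum_congr rfl fun j _ => ?_
    ring
  have h3 := Real.sum_mul_le_sqrt_mul_sqrt s (fun j => ‖b j‖) (fun j => ‖b j - a j‖)
  have h4 := Real.sq_sqrt hU
  have h5 := Real.sq_sqrt hV
  nlinarith

/-- the points separated by the Fourier transform -/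
def ptY {p : ℕ} (y : Fin (2 ^ p) → Bool) : Pt p where
  c i := ((ch i (y i) : Fin (2 ^ (p + 1))) : ℕ) / (2 ^ (p + 1) : ℕ)
  lo i := by
    rw [ch_cast, pow_succ]
    push_cast
    have h0 : (0 : ℝ) < 2 ^ p := by positivity
    have h4 : (0 : ℝ) ≤ (y i).toNat := Nat.cast_nonneg _
    have : (2 : ℝ) ^ p * ((2 * (i : ℕ) + (y i).toNat) / (2 ^ p * 2)) = i + (y i).toNat / 2 := by
      field_simp
    rw [this]
    linarith
  hi i := by
    rw [ch_cast, pow_succ]
    push_cast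
    have h0 : (0 : ℝ) < 2 ^ p := by positivity
    have h4 : ((y i).toNat : ℝ) ≤ 1 := by exact_mod_cast Bool.toNat_le (y i)
    have : (2 : ℝ) ^ p * ((2 * (i : ℕ) + (y i).toNat) / (2 ^ p * 2)) = i + (y i).toNat / 2 := by
      field_simp
    rw [this]
    linarith

/-- the translates of the section `v` at a point -/
def vj {p : ℕ} (x : Pt p) (j : ℕ) : Mt p := wm p x ^ j * vm p * star (wm p x ^ j)

theorem vj_entry {p : ℕ} (x : Pt p) (j : ℕ) (i : Ix p) :
    vj x j i none = i.elim 0 (fun i => ex (j * x.c i) * r2 ^ p) := by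
  rw [vj, wm_pow, dg_star]
  rw [dg, dg, Matrix.mul_diagonal, Matrix.diagonal_mul]
  rcases i with _ | i
  · simp [vm]
  · simp [vm]

theorem hat_vj_entry {p : ℕ} (y : Fin (2 ^ p) → Bool) (s : Fin (2 ^ (p + 1))) (i : Ix p) :
    (hat (fun j : Fin (2 ^ (p + 1)) => vj (ptY y) j) s) i none
      = i.elim 0 (fun i => if s = ch i (y i) then (2 ^ (p + 1) : ℕ) * r2 ^ p else 0) := by
  rw [hat, Matrix.sum_apply]
  simp only [Matrix.smul_apply, vj_entry, smul_eq_mul]
  rcases i with _ | i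
  · simp
  · simp only [Option.elim_some]
    have h1 : ∀ j : Fin (2 ^ (p + 1)), chi s j * (ex ((j : ℕ) * (ptY y).c i) * r2 ^ p)
        = ex (j * ((((ch i (y i) : Fin (2 ^ (p + 1))) : ℕ) : ℤ) - ((s : ℕ) : ℤ) : ℤ) /
          (2 ^ (p + 1) : ℕ)) * r2 ^ p := by
      intro j
      rw [← mul_assoc, chi, ← ex_add]
      congr 2
      simp only [ptY]
      push_cast
      ring
    simp only [h1, ← Finset.sum_mul]
    by_cases h : s = ch i (y i)
    · rw [if_pos h, ← h]
      simp [ex_zero]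
    · rw [if_neg h]
      have h2 := sum_ex (n := 2 ^ (p + 1)) (by positivity)
        ((((ch i (y i) : Fin (2 ^ (p + 1))) : ℕ) : ℤ) - ((s : ℕ) : ℤ))
        (not_dvd_sub (ch i (y i)).2 s.2 fun hh => h (Fin.ext hh))
      simp only [mul_div_assoc]
      rw [h2, zero_mul]

theorem norm_hat_vj {p : ℕ} (y : Fin (2 ^ p) → Bool) (s : Fin (2 ^ (p + 1))) :
    ‖cO (hat (fun j : Fin (2 ^ (p + 1)) => vj (ptY y) j) s)‖ ^ 2
      = if bt s = y (par s) then 2 * (2 ^ (p + 1) : ℝ) else 0 := by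
  rw [norm_cO_sq', Fintype.sum_option]
  simp only [hat_vj_entry]
  simp only [Option.elim_none, Option.elim_some, norm_zero]
  by_cases h : bt s = y (par s)
  · rw [if_pos h, Finset.sum_eq_single (par s)]
    · rw [if_pos (ch_eq_iff.2 ⟨rfl, h⟩), norm_mul, mul_pow, norm_pow, ← pow_mul, mul_comm p 2,
        pow_mul, norm_r2_sq, Complex.norm_natCast]
      push_cast
      rw [pow_succ]
      have : (1 / 2 : ℝ) ^ p = (2 ^ p)⁻¹ := by rw [one_div, inv_pow]
      rw [this]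
      have h0 : (0 : ℝ) < 2 ^ p := by positivity
      field_simp
      ring
    · intro i _ hi
      rw [if_neg, norm_zero]
      · ring
      · intro hs
        exact hi (ch_eq_iff.1 hs).1.symm
    · simp
  · rw [if_neg h]
    have : ∀ i, ¬ (s = ch i (y i)) := by
      rintro i hs
      obtain ⟨h1, h2⟩ := ch_eq_iff.1 hs
      rw [← h1] at h2
      exact h h2
    simp [this]

end Pool.Agent.W659.EC
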