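import Pool.Agent.W659.EC.Lb4

/-! The lower bound. -/

set_option autoImplicit false
set_option linter.unusedVariables false

open scoped Matrix.Norms.L2Operator ENNReal Matrix

noncomputable section

namespace Pool.Agent.W659.EC

section q

variable {D : Type} [CStarAlgebra D] {n : ℕ}

/-- partial sums of the squares of the Fourier coefficients -/
def QT (F : Fin n → D) (T : Finset (Fin n)) : D := ∑ s ∈ T, star (hat F s) * hat F s

theorem QT_univ (hn : 0 < n) (F : Fin n → D) :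
    QT F Finset.univ = (n : ℂ) • ∑ j, star (F j) * F j := parseval hn F

theorem QT_norm (hn : 0 < n) (F : Fin n → D) (hF : ∀ j, ‖F j‖ ≤ 1) (T : Finset (Fin n)) :
    ‖QT F T‖ ≤ (n : ℝ) ^ 2 := by
  let _ := CStarAlgebra.spectralOrder D
  let _ := CStarAlgebra.spectralOrderedRing D
  have h0 : 0 ≤ QT F T := Finset.sum_nonneg fun s _ => star_mul_self_nonneg _
  have h1 : QT F T ≤ QT F Finset.univ :=
    Finset.sum_le_univ_sum_of_nonneg fun s => star_mul_self_nonneg _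
  refine (CStarAlgebra.norm_le_norm_of_nonneg_of_le h0 h1).trans ?_
  rw [QT_univ hn, norm_smul, Complex.norm_natCast, sq]
  gcongr
  refine (norm_sum_le _ _).trans ?_
  calc ∑ j : Fin n, ‖star (F j) * F j‖ ≤ ∑ j : Fin n, (1 : ℝ) := by
        refine Finset.sum_le_sum fun j _ => ?_
        rw [CStarRing.norm_star_mul_self]
        have := hF j
        have := norm_nonneg (F j)
        nlinarith
    _ = n := by simp

variable {p : ℕ} {Φ : D →ₗ[ℂ] Mt p}

theorem re_sum (T : Finset (Fin n)) (G : Fin n → D) :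
    (Φ (∑ s ∈ T, G s) none none).re = ∑ s ∈ T, (Φ (G s) none none).re := by
  rw [map_sum, Matrix.sum_apply, Complex.re_sum]

theorem QT_low (h : IsCP Φ) (h1 : ‖Φ 1‖ ≤ 1) (F : Fin n → D) (T : Finset (Fin n)) :
    ∑ s ∈ T, ‖cO (Φ (hat F s))‖ ^ 2 ≤ (Φ (QT F T) none none).re := by
  rw [QT, re_sum]
  exact Finset.sum_le_sum fun s _ => cp_schwarz h h1 _

theorem QT_up (hn : 0 < n) (h : IsCP Φ) (h1 : ‖Φ 1‖ ≤ 1) (F : Fin n → D) (hF : ∀ j, ‖F j‖ ≤ 1) :
    (Φ (QT F Finset.univ) none none).re ≤ (n : ℝ) ^ 2 := by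
  rw [QT_univ hn, map_smul, Matrix.smul_apply, smul_eq_mul,
    show (n : ℂ) = ((n : ℝ) : ℂ) by simp, Complex.re_ofReal_mul, re_sum, sq]
  gcongr
  calc ∑ j : Fin n, (Φ (star (F j) * F j) none none).re ≤ ∑ j : Fin n, (1 : ℝ) := by
        refine Finset.sum_le_sum fun j _ => ?_
        have e1 := cp_dom h (F j) 1
        rw [star_one, one_mul, mul_one, one_mul] at e1
        have e2 := cp_one h h1
        have e3 := hF j
        have e4 := norm_nonneg (F j)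
        have e5 : ‖F j‖ ^ 2 ≤ 1 := by nlinarith
        have e6 : 0 ≤ (Φ 1 none none).re := by
          have := cp_nonneg h 1
          rwa [star_one, one_mul] at this
        nlinarith
    _ = n := by simp

theorem QT_add (F : Fin n → D) (T : Finset (Fin n)) :
    (Φ (QT F T) none none).re + (Φ (QT F (Finset.univ \ T)) none none).re
      = (Φ (QT F Finset.univ) none none).re := by
  rw [QT, QT, QT, re_sum, re_sum, re_sum, add_comm]
  exact Finset.sum_sdiff (Finset.subset_univ T)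

theorem hat_close (hn : 0 < n) {ε : ℝ} (hε : 0 ≤ ε) (a b : Fin n → Mt p)
    (hab : ∀ j, ‖a j - b j‖ ≤ ε) (T : Finset (Fin n)) :
    Real.sqrt (∑ s ∈ T, ‖cO (hat a s) - cO (hat b s)‖ ^ 2) ≤ n * ε := by
  rw [Real.sqrt_le_left (by positivity)]
  have h1 : ∑ s ∈ T, ‖cO (hat a s) - cO (hat b s)‖ ^ 2
      ≤ ∑ s, ‖cO (hat a s) - cO (hat b s)‖ ^ 2 :=
    Finset.sum_le_univ_sum_of_nonneg fun s => by positivity
  refine h1.trans ?_
  have h2 := congrFun (congrFun (parseval hn fun j => a j - b j) none) none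
  rw [Matrix.sum_apply, Matrix.smul_apply, Matrix.sum_apply] at h2
  simp only [star_mul_00, ← Complex.ofReal_sum, smul_eq_mul] at h2
  rw [show (n : ℂ) = ((n : ℝ) : ℂ) by simp, ← Complex.ofReal_mul] at h2
  have h3 := Complex.ofReal_injective h2
  simp only [← hat_sub, map_sub] at h3
  rw [h3, mul_pow, sq (n : ℝ), mul_assoc]
  gcongr
  calc ∑ j : Fin n, ‖cO (a j) - cO (b j)‖ ^ 2 ≤ ∑ j : Fin n, ε ^ 2 := by
        refine Finset.sum_le_sum fun j _ => ?_
        have := (norm_cO_le (a j - b j)).trans (hab j)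
        rw [map_sub] at this
        gcongr
    _ = n * ε ^ 2 := by simp

end q

/-- the Hamming distance counts the Fourier coefficients -/
theorem sum_out {p : ℕ} (y y' : Fin (2 ^ p) → Bool) :
    ∑ s ∈ (Finset.univ \ Finset.univ.filter fun s : Fin (2 ^ (p + 1)) => bt s = y (par s)),
      (if bt s = y' (par s) then 2 * (2 ^ (p + 1) : ℝ) else 0)
      = 2 * (2 ^ (p + 1) : ℝ) * (Finset.univ.filter fun i => y i ≠ y' i).card := by
  have h1 : (Finset.univ \ Finset.univ.filter fun s : Fin (2 ^ (p + 1)) => bt s = y (par s))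
      = Finset.univ.filter fun s : Fin (2 ^ (p + 1)) => ¬ (bt s = y (par s)) := by
    ext s; simp
  rw [h1, Finset.sum_filter, sum_ch, Finset.card_filter]
  push_cast
  rw [Finset.mul_sum]
  refine Finset.sum_congr rfl fun i _ => ?_
  simp only [bt_ch, par_ch]
  cases h : y i <;> cases h' : y' i <;> simp

theorem sum_in {p : ℕ} (y : Fin (2 ^ p) → Bool) :
    ∑ s ∈ (Finset.univ.filter fun s : Fin (2 ^ (p + 1)) => bt s = y (par s)),
      (if bt s = y (par s) then 2 * (2 ^ (p + 1) : ℝ) else 0) = ((2 ^ (p + 1) : ℕ) : ℝ) ^ 2 := by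
  rw [Finset.sum_filter, sum_ch]
  have h1 : ∀ i : Fin (2 ^ p), ((if bt (ch i false) = y (par (ch i false)) then
      (if bt (ch i false) = y (par (ch i false)) then 2 * (2 ^ (p + 1) : ℝ) else 0) else 0)
      + (if bt (ch i true) = y (par (ch i true)) then
      (if bt (ch i true) = y (par (ch i true)) then 2 * (2 ^ (p + 1) : ℝ) else 0) else 0))
      = 2 * 2 ^ (p + 1) := by
    intro i
    simp only [bt_ch, par_ch]
    cases h : y i <;> simp
  simp only [h1]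
  rw [Finset.sum_const, Finset.card_univ, Fintype.card_fin, nsmul_eq_mul]
  push_cast
  rw [pow_succ]
  ring

theorem norm_vj_le {p : ℕ} (x : Pt p) (j : ℕ) : ‖vj x j‖ ≤ 1 := by
  rw [vj]
  refine (norm_mul_le _ _).trans ?_
  rw [norm_star]
  have h1 := norm_wm_pow_le p x j
  have h2 : ‖wm p x ^ j * vm p‖ ≤ 1 :=
    (norm_mul_le _ _).trans (mul_le_one₀ h1 (norm_nonneg _) (norm_vm_le p))
  exact mul_le_one₀ h2 (norm_nonneg _) h1

theorem norm_al_vA (j : ℕ) : ‖(al^[j]) vA‖ ≤ 1 := by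
  refine AA.norm_le zero_le_one fun p x => ?_
  rw [ev_al_iter, ev_vA]
  exact norm_vj_le x j

section main

variable {D : Type} [CStarAlgebra D]

/-- lower bound at the point itself -/
theorem sepA {p : ℕ} (y : Fin (2 ^ p) → Bool) (Φ : D →ₗ[ℂ] Mt p) (h : IsCP Φ)
    (h1 : ‖Φ 1‖ ≤ 1) (F : Fin (2 ^ (p + 1)) → D)
    (hΦ : ∀ j, ‖Φ (F j) - vj (ptY y) j‖ ≤ 1 / 10 ^ 6) :
    (((2 ^ (p + 1) : ℕ) : ℝ) * (1 - 1 / 10 ^ 6)) ^ 2 ≤
      (Φ (QT F (Finset.univ.filter fun s => bt s = y (par s))) none none).re := by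
  have hn : 0 < 2 ^ (p + 1) := by positivity
  have l1 : Real.sqrt (∑ s ∈ (Finset.univ.filter fun s : Fin (2 ^ (p + 1)) => bt s = y (par s)),
      ‖cO (hat (fun j : Fin (2 ^ (p + 1)) => vj (ptY y) j) s)‖ ^ 2) = ((2 ^ (p + 1) : ℕ) : ℝ) := by
    have : ∀ s, ‖cO (hat (fun j : Fin (2 ^ (p + 1)) => vj (ptY y) j) s)‖ ^ 2
      = if bt s = y (par s) then 2 * (2 ^ (p + 1) : ℝ) else 0 := norm_hat_vj y
    simp only [this]
    rw [sum_in, Real.sqrt_sq (by positivity)]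
  have l2 := minkowski (Finset.univ.filter fun s : Fin (2 ^ (p + 1)) => bt s = y (par s))
    (fun s => cO (hat (fun j : Fin (2 ^ (p + 1)) => vj (ptY y) j) s))
    (fun s => cO (hat (fun j : Fin (2 ^ (p + 1)) => Φ (F j)) s))
  have l3 := hat_close hn (ε := 1 / 10 ^ 6) (by norm_num)
    (fun j : Fin (2 ^ (p + 1)) => Φ (F j)) (fun j : Fin (2 ^ (p + 1)) => vj (ptY y) j) hΦ
    (Finset.univ.filter fun s : Fin (2 ^ (p + 1)) => bt s = y (par s))
  have l4 := QT_low h h1 F (Finset.univ.filter fun s : Fin (2 ^ (p + 1)) => bt s = y (par s))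
  simp only [hat_map Φ F] at l4
  beta_reduce at l2 l3
  rw [l1] at l2
  refine le_trans ?_ l4
  have hN : (0 : ℝ) < ((2 ^ (p + 1) : ℕ) : ℝ) := by exact_mod_cast hn
  generalize ((2 ^ (p + 1) : ℕ) : ℝ) = N at *
  rw [← Real.le_sqrt' (by nlinarith)]
  linarith

/-- upper bound at the other point -/
theorem sepB {p : ℕ} (y y' : Fin (2 ^ p) → Bool) (Φ' : D →ₗ[ℂ] Mt p)
    (h' : IsCP Φ') (h1' : ‖Φ' 1‖ ≤ 1) (F : Fin (2 ^ (p + 1)) → D)
    (hF : ∀ j, ‖F j‖ ≤ 1) (hΦ' : ∀ j, ‖Φ' (F j) - vj (ptY y') j‖ ≤ 1 / 10 ^ 6) :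
    Real.sqrt (2 * ((2 ^ (p + 1) : ℕ) : ℝ) * (Finset.univ.filter fun i => y i ≠ y' i).card) ≤
      Real.sqrt (((2 ^ (p + 1) : ℕ) : ℝ) ^ 2 -
        (Φ' (QT F (Finset.univ.filter fun s => bt s = y (par s))) none none).re)
      + ((2 ^ (p + 1) : ℕ) : ℝ) * (1 / 10 ^ 6) := by
  have hn : 0 < 2 ^ (p + 1) := by positivity
  have u1 := QT_up hn h' h1' F hF
  rw [← QT_add F (Finset.univ.filter fun s : Fin (2 ^ (p + 1)) => bt s = y (par s))] at u1
  have u2 := QT_low h' h1' F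
    (Finset.univ \ Finset.univ.filter fun s : Fin (2 ^ (p + 1)) => bt s = y (par s))
  simp only [hat_map Φ' F] at u2
  have u3 := minkowski
    (Finset.univ \ Finset.univ.filter fun s : Fin (2 ^ (p + 1)) => bt s = y (par s))
    (fun s => cO (hat (fun j : Fin (2 ^ (p + 1)) => vj (ptY y') j) s))
    (fun s => cO (hat (fun j : Fin (2 ^ (p + 1)) => Φ' (F j)) s))
  have u4 := hat_close hn (ε := 1 / 10 ^ 6) (by norm_num)
    (fun j : Fin (2 ^ (p + 1)) => Φ' (F j)) (fun j : Fin (2 ^ (p + 1)) => vj (ptY y') j) hΦ'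
    (Finset.univ \ Finset.univ.filter fun s : Fin (2 ^ (p + 1)) => bt s = y (par s))
  have u5 : ∑ s ∈ (Finset.univ \ Finset.univ.filter fun s : Fin (2 ^ (p + 1)) =>
      bt s = y (par s)), ‖cO (hat (fun j : Fin (2 ^ (p + 1)) => vj (ptY y') j) s)‖ ^ 2
      = 2 * ((2 ^ (p + 1) : ℕ) : ℝ) * (Finset.univ.filter fun i => y i ≠ y' i).card := by
    have : ∀ s, ‖cO (hat (fun j : Fin (2 ^ (p + 1)) => vj (ptY y') j) s)‖ ^ 2
      = if bt s = y' (par s) then 2 * (2 ^ (p + 1) : ℝ) else 0 := norm_hat_vj y'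
    simp only [this]
    rw [sum_out]
    push_cast
    rfl
  beta_reduce at u3 u4
  rw [u5] at u3
  refine u3.trans (add_le_add (Real.sqrt_le_sqrt ?_) u4)
  linarith

/-- points with the same label are close in the Hamming distance -/
theorem sep {p : ℕ} (y y' : Fin (2 ^ p) → Bool) (Φ Φ' : D →ₗ[ℂ] Mt p) (h : IsCP Φ)
    (h' : IsCP Φ') (h1 : ‖Φ 1‖ ≤ 1) (h1' : ‖Φ' 1‖ ≤ 1) (F : Fin (2 ^ (p + 1)) → D)
    (hF : ∀ j, ‖F j‖ ≤ 1) (hΦ : ∀ j, ‖Φ (F j) - vj (ptY y) j‖ ≤ 1 / 10 ^ 6)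
    (hΦ' : ∀ j, ‖Φ' (F j) - vj (ptY y') j‖ ≤ 1 / 10 ^ 6) (e : D) (he : star e = e)
    (he2 : e * e = e) (hc : ∀ a, ∃ c : ℂ, e * a * e = c • e)
    (hω : 1 - 3 * (1 / 10 ^ 6) ≤ (Φ e none none).re)
    (hω' : 1 - 3 * (1 / 10 ^ 6) ≤ (Φ' e none none).re) :
    12 * (Finset.univ.filter fun i => y i ≠ y' i).card ≤ 2 ^ p := by
  have hn : 0 < 2 ^ (p + 1) := by positivity
  obtain ⟨c, hc⟩ := hc (QT F (Finset.univ.filter fun s => bt s = y (par s)))
  have hQ := QT_norm hn F hF (Finset.univ.filter fun s => bt s = y (par s))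
  have hs : Real.sqrt (3 * (1 / 10 ^ 6)) ≤ 2 / 10 ^ 3 := by
    rw [Real.sqrt_le_left (by norm_num)]
    norm_num
  have c1 := om_close h h1 e he he2 (η := 3 * (1 / 10 ^ 6)) (by norm_num) (by norm_num) hω _ c hc hQ
  have c2 := om_close h' h1' e he he2 (η := 3 * (1 / 10 ^ 6)) (by norm_num) (by norm_num) hω' _ c
    hc hQ
  have l6 := sepA y Φ h h1 F hΦ
  have u3 := sepB y y' Φ' h' h1' F hF hΦ'
  have u10 : ((2 ^ (p + 1) : ℕ) : ℝ) = 2 * 2 ^ p := by push_cast; rw [pow_succ]; ring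
  have hN : (0 : ℝ) < ((2 ^ (p + 1) : ℕ) : ℝ) := by exact_mod_cast hn
  have d1 := (Complex.abs_re_le_norm _).trans c1
  have d2 := (Complex.abs_re_le_norm _).trans c2
  rw [Complex.sub_re, abs_le] at d1 d2
  generalize (Φ (QT F (Finset.univ.filter fun s => bt s = y (par s))) none none).re = A at *
  generalize (Φ' (QT F (Finset.univ.filter fun s => bt s = y (par s))) none none).re = A' at *
  have goal : (12 * ((Finset.univ.filter fun i => y i ≠ y' i).card : ℝ)) ≤ 2 ^ p := by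
    generalize ((Finset.univ.filter fun i => y i ≠ y' i).card : ℝ) = h0 at *
    generalize ((2 ^ (p + 1) : ℕ) : ℝ) = N at *
    have c3 : A ≤ A' + 2 / 100 * N ^ 2 := by
      have e1 : (2 * Real.sqrt (3 * (1 / 10 ^ 6)) + 3 * (1 / 10 ^ 6)) * N ^ 2
          ≤ (5 / 1000) * N ^ 2 := by
        gcongr
        linarith
      linarith [d1.2, d2.1]
    have u6 : Real.sqrt (N ^ 2 - A') ≤ N * (15 / 100) := by
      rw [Real.sqrt_le_left (by positivity)]
      nlinarith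
    have u7 : Real.sqrt (2 * N * h0) ≤ N * (16 / 100) := by linarith
    rw [Real.sqrt_le_left (by positivity)] at u7
    have u8 : (2 * h0) * N ≤ ((16 / 100) ^ 2 * N) * N := by nlinarith
    have u9 : 2 * h0 ≤ (16 / 100) ^ 2 * N := le_of_mul_le_mul_right u8 hN
    have : (0 : ℝ) < 2 ^ p := by positivity
    rw [u10] at u9
    nlinarith
  exact_mod_cast goal

end main

/-- the rank of a system of one colour -/
theorem rank_bound {D : FDA} (ψ : AA →ₗ[ℂ] D.alg) (φ : D.alg →ₗ[ℂ] AA) (hψ : IsCPC ψ)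
    (hφ : IsCPC φ) (hoz : IsOrderZero φ) (p : ℕ)
    (hv : ∀ j < 2 ^ (p + 1), ‖φ (ψ ((al^[j]) vA)) - (al^[j]) vA‖ ≤ 1 / 10 ^ 6)
    (hp : ‖φ (ψ pA) - pA‖ ≤ 1 / 10 ^ 6) : 2 ^ (2 ^ p) ≤ D.rank ^ 2 := by
  have hpA : ‖pA‖ ≤ 1 := AA.norm_le zero_le_one fun p x => norm_pm_le p
  obtain ⟨e, lam, e1, e2, e3, e4, e5, e6, e7, e8⟩ := spec_all D (ψ pA) (by
    obtain ⟨N, hN⟩ := hψ.1 1 !![vA]
    refine ⟨N 0 0, ?_⟩
    have := congrFun (congrFun hN 0) 0
    simpa [Matrix.mul_apply, Matrix.conjTranspose_apply, vA_star_mul] using this)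
    ((hψ.2 _).trans hpA)
  have hCP : ∀ y : Fin (2 ^ p) → Bool, IsCP (evL p (ptY y) ∘ₗ φ) := fun y =>
    (isCP_evL p (ptY y)).comp hφ.1
  have hev : ∀ (y : Fin (2 ^ p) → Bool) (a : AA), ‖evL p (ptY y) a‖ ≤ ‖a‖ := fun y a =>
    a.norm_ev p (ptY y)
  have h1 : ∀ y : Fin (2 ^ p) → Bool, ‖(evL p (ptY y) ∘ₗ φ) 1‖ ≤ 1 := fun y =>
    (hev y _).trans ((hφ.2 _).trans norm_one_le')
  have hl : ∀ y : Fin (2 ^ p) → Bool, ∃ m,
      1 - 3 * (1 / 10 ^ 6) ≤ ((evL p (ptY y) ∘ₗ φ) (e m) none none).re := by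
    intro y
    have hN : ∀ m, ∃ N : Mt p, (evL p (ptY y) ∘ₗ φ) (e m) = star N * N := by
      intro m
      obtain ⟨N, hN⟩ := hCP y 1 !![e m]
      refine ⟨N 0 0, ?_⟩
      have := congrFun (congrFun hN 0) 0
      simpa [Matrix.mul_apply, Matrix.conjTranspose_apply, e1, e2] using this
    choose N hN using hN
    refine label N (fun m => (evL p (ptY y) ∘ₗ φ) (e m)) hN (fun l m hlm => ?_) ?_ lam e6 e7
      (by norm_num) (by norm_num) ?_
    · have h2 := hoz (e l) (e m) (by rw [e1, e2, e1, e2, e3 l m hlm])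
      rw [e1, e2, e1, e2] at h2
      change ev p (ptY y) (φ (e l)) * ev p (ptY y) (φ (e m)) = 0
      rw [← map_mul, h2, map_zero]
    · rw [← map_sum, e4]
      exact h1 y
    · have h2 : ∑ m, (lam m : ℂ) • (evL p (ptY y) ∘ₗ φ) (e m) - pm p
          = evL p (ptY y) (φ (ψ pA) - pA) := by
        rw [map_sub, e5, map_sum, map_sum]
        simp only [map_smul]
        rfl
      rw [h2]
      exact (hev y _).trans hp
  choose lab hlab using hl
  have := labels (2 ^ p) lab fun y y' hyy => by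
    have hy' := hlab y'
    rw [← hyy] at hy'
    refine sep y y' _ _ (hCP y) (hCP y') (h1 y) (h1 y')
      (fun j : Fin (2 ^ (p + 1)) => ψ ((al^[j]) vA)) (fun j => (hψ.2 _).trans (norm_al_vA j))
      (fun j => ?_) (fun j => ?_) (e (lab y)) (e1 _) (e2 _) (e8 _) (hlab y) hy'
    · have h2 : (evL p (ptY y) ∘ₗ φ) (ψ ((al^[(j : ℕ)]) vA)) - vj (ptY y) j
          = evL p (ptY y) (φ (ψ ((al^[(j : ℕ)]) vA)) - (al^[(j : ℕ)]) vA) := by
        rw [map_sub, evL_apply p (ptY y) ((al^[(j : ℕ)]) vA), ev_al_iter, ev_vA]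
        rfl
      rw [h2]
      exact (hev y _).trans (hv j j.2)
    · have h2 : (evL p (ptY y') ∘ₗ φ) (ψ ((al^[(j : ℕ)]) vA)) - vj (ptY y') j
          = evL p (ptY y') (φ (ψ ((al^[(j : ℕ)]) vA)) - (al^[(j : ℕ)]) vA) := by
        rw [map_sub, evL_apply p (ptY y') ((al^[(j : ℕ)]) vA), ev_al_iter, ev_vA]
        rfl
      rw [h2]
      exact (hev y' _).trans (hv j j.2)
  rwa [card_sigma_rank] at this

theorem log_bound {r p : ℕ} (h : 2 ^ (2 ^ p) ≤ r ^ 2) :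
    0 < r ∧ ((2 ^ (p + 1) : ℕ) : ℝ) * (Real.log 2 / 4) ≤ Real.log r := by
  have h0 : 0 < r := by
    rcases Nat.eq_zero_or_pos r with h0 | h0
    · subst h0
      have : 0 < 2 ^ (2 ^ p) := by positivity
      simp at h
    · exact h0
  refine ⟨h0, ?_⟩
  have h1 : ((2 : ℝ) ^ (2 ^ p)) ≤ (r : ℝ) ^ 2 := by exact_mod_cast h
  have h2 := Real.log_le_log (by positivity) h1
  rw [Real.log_pow, Real.log_pow] at h2
  push_cast at h2 ⊢
  rw [pow_succ]
  linarith

theorem htNuc_al : ((Real.log 2 / 4 : ℝ) : EReal) ≤ htNuc al := by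
  classical
  refine le_iInf₂ fun d hd => ?_
  rw [nucDim_AA] at hd
  have hd0 : d = 0 := by exact_mod_cast hd.symm
  subst hd0
  refine le_entropy _ _ {vA, pA} (1 / 10 ^ 6) (by norm_num) _ fun N => ?_
  refine ⟨2 ^ (N + 1), (Nat.lt_two_pow_self.le.trans (Nat.pow_le_pow_right (by norm_num)
    (Nat.le_succ N))), Nat.one_le_two_pow, ?_⟩
  rintro r ⟨F, hF, ψ, φ, hψ, hφ, h⟩
  refine log_bound ?_
  rw [← hF, Fin.sum_univ_one]
  set ψ0 : AA →ₗ[ℂ] (F 0).alg := LinearMap.proj 0 ∘ₗ ψ with hψ0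
  have hψ0' : IsCPC ψ0 := by
    refine ⟨(isCP_hom ((Pi.evalStarAlgHom ℂ (fun j : Fin (0 + 1) => (F j).alg) 0)) _
      fun _ => rfl).comp hψ.1, fun a => ?_⟩
    exact (norm_le_pi_norm (ψ a) 0).trans (hψ.2 a)
  refine rank_bound ψ0 (φ 0) hψ0' (hφ 0).1 (hφ 0).2 N (fun j hj => ?_) ?_
  · have := h ((al^[j]) vA) ⟨j, hj, vA, by simp, rfl⟩
    rwa [Fin.sum_univ_one] at this
  · have := h pA ⟨0, by positivity, pA, by simp, rfl⟩
    rwa [Fin.sum_univ_one] at this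

theorem htDr_al : ((Real.log 2 / 4 : ℝ) : EReal) ≤ htDr al := by
  refine le_iInf₂ fun d hd => ?_
  rw [decRank_AA] at hd
  have hd0 : d = 0 := by exact_mod_cast hd.symm
  subst hd0
  have h := htNuc_al
  have h1 : htNuc al ≤ entropy (HasDec AA 0) al := iInf₂_le 0 (by rw [nucDim_AA]; rfl)
  refine (h.trans h1).trans ?_
  refine iSup_mono fun F => iSup_mono fun ε => iSup_mono fun hε => ?_
  refine Filter.limsup_le_limsup (Filter.Eventually.of_forall fun n => ?_)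
  refine EReal.div_le_div_right_of_nonneg (by exact_mod_cast Nat.zero_le n) ?_
  refine ENNReal.log_le_log ?_
  exact le_iInf₂ fun r hr => iInf₂_le r hr.hasDec

end Pool.Agent.W659.EC
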