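import Mathlib

/-! The levels: index sets, the isometries `ι`, `κ`, the sampling matrices. -/

set_option autoImplicit false

open scoped Matrix.Norms.L2Operator ENNReal Matrix

noncomputable section

namespace Pool.Agent.W659.EC

/-- index set of level `p`: a base point and `2^p` cells -/
abbrev Ix (p : ℕ) : Type := Option (Fin (2 ^ p))

/-- the matrix algebra of level `p` -/
abbrev Mt (p : ℕ) : Type := Matrix (Ix p) (Ix p) ℂ

theorem ch_lt {p : ℕ} (i : Fin (2 ^ p)) (b : Bool) : 2 * (i : ℕ) + b.toNat < 2 ^ (p + 1) := by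
  have := i.2
  have hb : b.toNat ≤ 1 := Bool.toNat_le b
  rw [pow_succ]
  omega

/-- the child `b` of the cell `i` -/
def ch {p : ℕ} (i : Fin (2 ^ p)) (b : Bool) : Fin (2 ^ (p + 1)) := ⟨2 * i + b.toNat, ch_lt i b⟩

theorem par_lt {p : ℕ} (s : Fin (2 ^ (p + 1))) : (s : ℕ) / 2 < 2 ^ p := by
  have := s.2
  have h := pow_succ 2 p
  omega

/-- the parent of a cell -/
def par {p : ℕ} (s : Fin (2 ^ (p + 1))) : Fin (2 ^ p) := ⟨s / 2, par_lt s⟩

/-- the last bit of a cell -/
def bt {p : ℕ} (s : Fin (2 ^ (p + 1))) : Bool := decide ((s : ℕ) % 2 = 1)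

@[simp] theorem par_ch {p : ℕ} (i : Fin (2 ^ p)) (b : Bool) : par (ch i b) = i := by
  ext
  cases b
  · simp [par, ch]
  · simp [par, ch]; omega

@[simp] theorem bt_ch {p : ℕ} (i : Fin (2 ^ p)) (b : Bool) : bt (ch i b) = b := by
  cases b <;> simp [bt, ch]

@[simp] theorem ch_par_bt {p : ℕ} (s : Fin (2 ^ (p + 1))) : ch (par s) (bt s) = s := by
  ext
  rcases Nat.mod_two_eq_zero_or_one (s : ℕ) with h | h <;> simp [par, ch, bt, h] <;> omega

/-- cells of level `p + 1` are the children of cells of level `p` -/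
def chE (p : ℕ) : Fin (2 ^ p) × Bool ≃ Fin (2 ^ (p + 1)) where
  toFun x := ch x.1 x.2
  invFun s := (par s, bt s)
  left_inv x := by simp
  right_inv s := by simp

theorem ch_eq_iff {p : ℕ} {i : Fin (2 ^ p)} {b : Bool} {s : Fin (2 ^ (p + 1))} :
    s = ch i b ↔ par s = i ∧ bt s = b := by
  constructor
  · rintro rfl; simp
  · rintro ⟨rfl, rfl⟩; simp

theorem sum_ch {M : Type} [AddCommMonoid M] {p : ℕ} (f : Fin (2 ^ (p + 1)) → M) :
    ∑ s, f s = ∑ i : Fin (2 ^ p), (f (ch i false) + f (ch i true)) := by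
  rw [← (chE p).sum_comp, Fintype.sum_prod_type]
  refine Finset.sum_congr rfl fun i _ => ?_
  rw [Fintype.sum_bool, add_comm]
  rfl

/-- `1/√2` -/
def r2 : ℂ := ((Real.sqrt 2)⁻¹ : ℝ)

theorem r2_mul : r2 * r2 = 1 / 2 := by
  unfold r2
  rw [← Complex.ofReal_mul, ← mul_inv, Real.mul_self_sqrt (by norm_num)]
  norm_num

theorem star_r2 : star r2 = r2 := by
  unfold r2
  rw [Complex.star_def, Complex.conj_ofReal]

/-- signs -/
def sg (b : Bool) : ℂ := if b then -1 else 1

@[simp] theorem sg_true : sg true = -1 := rfl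
@[simp] theorem sg_false : sg false = 1 := rfl
theorem star_sg (b : Bool) : star (sg b) = sg b := by cases b <;> simp
theorem sg_mul_self (b : Bool) : sg b * sg b = 1 := by cases b <;> simp
theorem sg_not (b : Bool) : sg (!b) = - sg b := by cases b <;> simp

/-- the isometry of `H_p` into `H_{p+1}` -/
def io (p : ℕ) : Matrix (Ix (p + 1)) (Ix p) ℂ := Matrix.of fun s i =>
  match s, i with
  | none, none => 1
  | none, some _ => 0
  | some _, none => 0
  | some s, some i => if par s = i then r2 else 0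

/-- the isometry onto the complement of `H_p` in `H_{p+1}` -/
def ka (p : ℕ) : Matrix (Ix (p + 1)) (Fin (2 ^ p)) ℂ := Matrix.of fun s i =>
  match s with
  | none => 0
  | some s => if par s = i then sg (bt s) * r2 else 0

@[simp] theorem io_nn (p : ℕ) : io p none none = 1 := rfl
@[simp] theorem io_ns (p : ℕ) (i) : io p none (some i) = 0 := rfl
@[simp] theorem io_sn (p : ℕ) (s) : io p (some s) none = 0 := rfl
theorem io_ss (p : ℕ) (s i) : io p (some s) (some i) = if par s = i then r2 else 0 := rfl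
@[simp] theorem ka_n (p : ℕ) (i) : ka p none i = 0 := rfl
theorem ka_s (p : ℕ) (s i) : ka p (some s) i = if par s = i then sg (bt s) * r2 else 0 := rfl

theorem io_io (p : ℕ) : (io p)ᴴ * io p = 1 := by
  ext i j
  rw [Matrix.mul_apply, Fintype.sum_option, sum_ch]
  rcases i with _ | i <;> rcases j with _ | j
  · simp [Matrix.conjTranspose_apply]
  · simp [Matrix.conjTranspose_apply]
  · simp [Matrix.conjTranspose_apply]
  · simp only [Matrix.conjTranspose_apply, io_ns, io_ss, par_ch, Matrix.one_apply,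
      Option.some.injEq, star_zero, zero_mul, zero_add]
    by_cases h : i = j
    · subst h
      rw [Finset.sum_eq_single i]
      · simp [star_r2, r2_mul]; norm_num
      · intro k _ hk; simp [hk]
      · simp
    · rw [if_neg h]
      refine Finset.sum_eq_zero fun k _ => ?_
      by_cases hk : k = i
      · subst hk; simp [h]
      · simp [hk]

theorem ka_ka (p : ℕ) : (ka p)ᴴ * ka p = 1 := by
  ext i j
  rw [Matrix.mul_apply, Fintype.sum_option, sum_ch]
  simp only [Matrix.conjTranspose_apply, ka_n, ka_s, par_ch, bt_ch, Matrix.one_apply,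
    star_zero, zero_mul, zero_add]
  by_cases h : i = j
  · subst h
    rw [Finset.sum_eq_single i]
    · simp [star_r2, r2_mul]; norm_num
    · intro k _ hk; simp [hk]
    · simp
  · rw [if_neg h]
    refine Finset.sum_eq_zero fun k _ => ?_
    by_cases hk : k = i
    · subst hk; simp [h]
    · simp [hk]

theorem io_ka (p : ℕ) : (io p)ᴴ * ka p = 0 := by
  ext i j
  rw [Matrix.mul_apply, Fintype.sum_option, sum_ch]
  rcases i with _ | i
  · simp [Matrix.conjTranspose_apply]
  · simp only [Matrix.conjTranspose_apply, ka_n, ka_s, io_ns, io_ss, par_ch, bt_ch,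
      star_zero, zero_mul, zero_add, Matrix.zero_apply]
    refine Finset.sum_eq_zero fun k _ => ?_
    by_cases hk : k = i
    · subst hk; by_cases h : k = j <;> simp [h]
    · simp [hk]

theorem ka_io (p : ℕ) : (ka p)ᴴ * io p = 0 := by
  have := congrArg Matrix.conjTranspose (io_ka p)
  simpa using this

theorem io_ka_one (p : ℕ) : io p * (io p)ᴴ + ka p * (ka p)ᴴ = 1 := by
  ext s t
  rw [Matrix.add_apply, Matrix.mul_apply, Matrix.mul_apply, Fintype.sum_option]
  rcases s with _ | s <;> rcases t with _ | t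
  · simp [Matrix.conjTranspose_apply]
  · simp [Matrix.conjTranspose_apply]
  · simp [Matrix.conjTranspose_apply]
  · simp only [Matrix.conjTranspose_apply, io_sn, io_ss, ka_s, star_zero, mul_zero, zero_add,
      Matrix.one_apply, Option.some.injEq]
    rw [Finset.sum_eq_single (par s), Finset.sum_eq_single (par s)]
    · by_cases h : par t = par s
      · rw [if_pos rfl, if_pos h, if_pos rfl, if_pos h, star_mul, star_r2, star_sg]
        have h2 : s = t ↔ bt s = bt t := by
          constructor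
          · rintro rfl; rfl
          · intro hb
            rw [← ch_par_bt s, ← ch_par_bt t, h, hb]
        by_cases hb : bt s = bt t
        · rw [if_pos (h2.2 hb), hb]
          have : sg (bt t) * r2 * (r2 * sg (bt t)) = (r2 * r2) * (sg (bt t) * sg (bt t)) := by ring
          rw [this, sg_mul_self, r2_mul]
          norm_num
        · rw [if_neg (fun h' => hb (h2.1 h'))]
          have : sg (bt s) * r2 * (r2 * sg (bt t)) = (r2 * r2) * (sg (bt s) * sg (bt t)) := by ring
          rw [this, r2_mul]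
          have h3 : bt s = !bt t := by cases h4 : bt s <;> cases h5 : bt t <;> simp_all
          rw [h3, sg_not]
          have : -sg (bt t) * sg (bt t) = -(sg (bt t) * sg (bt t)) := by ring
          rw [this, sg_mul_self]
          norm_num
      · have h2 : s ≠ t := fun h' => h (by rw [h'])
        rw [if_neg h, if_neg h, if_neg h2]
        simp
    · intro k _ hk
      rw [if_neg (Ne.symm hk)]
      simp
    · simp
    · intro k _ hk
      rw [if_neg (Ne.symm hk)]
      simp
    · simp

/-- the pairs `(T, h)` describing the sections which are constant from the level `p` on -/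
abbrev Kp (p : ℕ) : Type := Mt p × (Fin (2 ^ p) → ℂ)

/-- the embedding of the pairs of level `p` into the matrices of level `p + 1` -/
def jm (p : ℕ) (k : Kp p) : Mt (p + 1) :=
  io p * k.1 * (io p)ᴴ + ka p * Matrix.diagonal k.2 * (ka p)ᴴ

theorem jm_add (p : ℕ) (k l : Kp p) : jm p (k + l) = jm p k + jm p l := by
  have : (Matrix.diagonal (k + l).2 : Matrix (Fin (2 ^ p)) (Fin (2 ^ p)) ℂ)
      = Matrix.diagonal k.2 + Matrix.diagonal l.2 := by
    rw [Matrix.diagonal_add]; rfl
  rw [jm, this]
  simp only [jm, Prod.fst_add, Matrix.mul_add, Matrix.add_mul]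
  abel

theorem jm_smul (p : ℕ) (c : ℂ) (k : Kp p) : jm p (c • k) = c • jm p k := by
  have : (Matrix.diagonal (c • k).2 : Matrix (Fin (2 ^ p)) (Fin (2 ^ p)) ℂ)
      = c • Matrix.diagonal k.2 := by
    rw [← Matrix.diagonal_smul]; rfl
  rw [jm, this]
  simp only [jm, Prod.smul_fst, Matrix.mul_smul, Matrix.smul_mul, smul_add]

theorem jm_mul (p : ℕ) (k l : Kp p) : jm p (k * l) = jm p k * jm p l := by
  have : (Matrix.diagonal (k * l).2 : Matrix (Fin (2 ^ p)) (Fin (2 ^ p)) ℂ)
      = Matrix.diagonal k.2 * Matrix.diagonal l.2 := by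
    rw [Matrix.diagonal_mul_diagonal]; rfl
  rw [jm, this]
  simp only [jm, Prod.fst_mul, Matrix.mul_add, Matrix.add_mul]
  have e1 : io p * k.1 * (io p)ᴴ * (io p * l.1 * (io p)ᴴ) = io p * (k.1 * l.1) * (io p)ᴴ := by
    rw [show io p * k.1 * (io p)ᴴ * (io p * l.1 * (io p)ᴴ)
      = io p * k.1 * ((io p)ᴴ * io p) * l.1 * (io p)ᴴ by simp only [Matrix.mul_assoc], io_io]
    simp only [Matrix.mul_assoc, Matrix.one_mul]
  have e2 : ka p * Matrix.diagonal k.2 * (ka p)ᴴ * (ka p * Matrix.diagonal l.2 * (ka p)ᴴ)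
      = ka p * (Matrix.diagonal k.2 * Matrix.diagonal l.2) * (ka p)ᴴ := by
    rw [show ka p * Matrix.diagonal k.2 * (ka p)ᴴ * (ka p * Matrix.diagonal l.2 * (ka p)ᴴ)
      = ka p * Matrix.diagonal k.2 * ((ka p)ᴴ * ka p) * Matrix.diagonal l.2 * (ka p)ᴴ by
        simp only [Matrix.mul_assoc], ka_ka]
    simp only [Matrix.mul_assoc, Matrix.one_mul]
  have e3 : io p * k.1 * (io p)ᴴ * (ka p * Matrix.diagonal l.2 * (ka p)ᴴ) = 0 := by
    rw [show io p * k.1 * (io p)ᴴ * (ka p * Matrix.diagonal l.2 * (ka p)ᴴ)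
      = io p * k.1 * ((io p)ᴴ * ka p) * Matrix.diagonal l.2 * (ka p)ᴴ by
        simp only [Matrix.mul_assoc], io_ka]
    simp
  have e4 : ka p * Matrix.diagonal k.2 * (ka p)ᴴ * (io p * l.1 * (io p)ᴴ) = 0 := by
    rw [show ka p * Matrix.diagonal k.2 * (ka p)ᴴ * (io p * l.1 * (io p)ᴴ)
      = ka p * Matrix.diagonal k.2 * ((ka p)ᴴ * io p) * l.1 * (io p)ᴴ by
        simp only [Matrix.mul_assoc], ka_io]
    simp
  rw [e1, e2, e3, e4]
  simp

theorem jm_star (p : ℕ) (k : Kp p) : jm p (star k) = star (jm p k) := by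
  have : (Matrix.diagonal (star k).2 : Matrix (Fin (2 ^ p)) (Fin (2 ^ p)) ℂ)
      = (Matrix.diagonal k.2)ᴴ := by
    rw [Matrix.diagonal_conjTranspose]; rfl
  rw [jm, this]
  simp only [jm, Matrix.star_eq_conjTranspose, Matrix.conjTranspose_add,
    Matrix.conjTranspose_mul, Matrix.conjTranspose_conjTranspose, Prod.fst_star, Matrix.mul_assoc]

theorem jm_one (p : ℕ) : jm p 1 = 1 := by
  have : (Matrix.diagonal (1 : Kp p).2 : Matrix (Fin (2 ^ p)) (Fin (2 ^ p)) ℂ) = 1 :=
    Matrix.diagonal_one
  rw [jm, this]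
  simp only [Prod.fst_one, Matrix.mul_one]
  exact io_ka_one p

/-- the next pair -/
def jk (p : ℕ) (k : Kp p) : Kp (p + 1) := (jm p k, fun s => k.2 (par s))

/-- `jk` as a *-homomorphism -/
def jkH (p : ℕ) : Kp p →⋆ₐ[ℂ] Kp (p + 1) where
  toFun := jk p
  map_one' := by rw [jk, jm_one]; rfl
  map_mul' k l := by rw [jk, jm_mul]; rfl
  map_zero' := by
    have := jm_smul p 0 0
    rw [zero_smul, zero_smul] at this
    rw [jk, this]; rfl
  map_add' k l := by rw [jk, jm_add]; rfl
  commutes' c := by
    rw [Algebra.algebraMap_eq_smul_one, Algebra.algebraMap_eq_smul_one, jk, jm_smul, jm_one]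
    rfl
  map_star' k := by rw [jk, jm_star]; rfl

theorem jm_diag (p : ℕ) (k : Kp p) (s : Fin (2 ^ (p + 1))) :
    jm p k (some s) (some s) = (k.1 (some (par s)) (some (par s)) + k.2 (par s)) / 2 := by
  rw [jm, Matrix.add_apply, Matrix.mul_apply, Matrix.mul_apply, Fintype.sum_option]
  have h1 : ∀ x, (io p * k.1) (some s) x = r2 * k.1 (some (par s)) x := by
    intro x
    rw [Matrix.mul_apply, Fintype.sum_option, Finset.sum_eq_single (par s)]
    · simp [io_ss]
    · intro i _ hi
      simp [io_ss, Ne.symm hi]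
    · simp
  rw [Finset.sum_eq_single (par s), Finset.sum_eq_single (par s), h1, h1]
  · simp only [Matrix.conjTranspose_apply, io_sn, io_ss, star_zero, mul_zero, zero_add, if_true,
      star_r2, Matrix.mul_diagonal, ka_s, star_mul, star_sg]
    have e1 : r2 * k.1 (some (par s)) (some (par s)) * r2
        = (r2 * r2) * k.1 (some (par s)) (some (par s)) := by ring
    have e2 : sg (bt s) * r2 * k.2 (par s) * (r2 * sg (bt s))
        = (r2 * r2) * (sg (bt s) * sg (bt s)) * k.2 (par s) := by ring
    rw [e1, e2, r2_mul, sg_mul_self]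
    ring
  · intro i _ hi
    simp [Matrix.conjTranspose_apply, ka_s, Ne.symm hi]
  · simp
  · intro i _ hi
    simp [Matrix.conjTranspose_apply, io_ss, Ne.symm hi]
  · simp

/-- multiplication operators -/
def dg {p : ℕ} (z : Fin (2 ^ p) → ℂ) : Mt p := Matrix.diagonal fun i => i.elim 1 z

theorem dg_io {p : ℕ} (z : Fin (2 ^ p) → ℂ) :
    dg (fun s => z (par s)) * io p = io p * dg z := by
  ext s i
  rw [dg, dg, Matrix.diagonal_mul, Matrix.mul_diagonal]
  rcases s with _ | s <;> rcases i with _ | i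
  · simp
  · simp
  · simp
  · rw [io_ss]
    by_cases h : par s = i
    · simp [h]; ring
    · simp [h]

theorem dg_ka {p : ℕ} (z : Fin (2 ^ p) → ℂ) :
    dg (fun s => z (par s)) * ka p = ka p * Matrix.diagonal z := by
  ext s i
  rw [dg, Matrix.diagonal_mul, Matrix.mul_diagonal]
  rcases s with _ | s
  · simp
  · rw [ka_s]
    by_cases h : par s = i
    · simp [h]; ring
    · simp [h]

theorem jm_dg {p : ℕ} (z : Fin (2 ^ p) → ℂ) : jm p (dg z, z) = dg (fun s => z (par s)) := by
  rw [jm, ← dg_io, ← dg_ka, Matrix.mul_assoc, Matrix.mul_assoc, ← Matrix.mul_add, io_ka_one,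
    Matrix.mul_one]

/-- random signs -/
def eps (p : ℕ) (a : Fin (2 ^ p) → Bool) : Matrix (Fin (2 ^ p)) (Ix p) ℂ := Matrix.of fun i j =>
  match j with
  | none => 0
  | some j => if i = j then sg (a i) else 0

/-- the sampling matrices -/
def Va (p : ℕ) (a : Fin (2 ^ p) → Bool) : Matrix (Ix (p + 1)) (Ix p) ℂ :=
  io p + ka p * eps p a

theorem Va_nn (p : ℕ) (a) : Va p a none none = 1 := by
  simp [Va, Matrix.mul_apply]

theorem Va_ns (p : ℕ) (a) (i) : Va p a none (some i) = 0 := by
  simp [Va, Matrix.mul_apply]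

theorem Va_sn (p : ℕ) (a) (s) : Va p a (some s) none = 0 := by
  simp [Va, Matrix.mul_apply, eps]

theorem Va_ss (p : ℕ) (a) (s) (i) :
    Va p a (some s) (some i) = if s = ch i (a i) then 2 * r2 else 0 := by
  rw [Va, Matrix.add_apply, Matrix.mul_apply, io_ss, Finset.sum_eq_single (par s)]
  · simp only [ka_s, if_true, eps, Matrix.of_apply]
    by_cases h : par s = i
    · subst h
      rw [if_pos rfl, if_pos rfl]
      by_cases h2 : bt s = a (par s)
      · rw [if_pos (by rw [← h2, ch_par_bt]), h2]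
        have : sg (a (par s)) * r2 * sg (a (par s)) = (sg (a (par s)) * sg (a (par s))) * r2 := by
          ring
        rw [this, sg_mul_self]
        ring
      · rw [if_neg (fun h3 => h2 (ch_eq_iff.1 h3).2)]
        have h3 : bt s = !(a (par s)) := by
          cases h4 : bt s <;> cases h5 : a (par s) <;> simp_all
        rw [h3, sg_not]
        have : -sg (a (par s)) * r2 * sg (a (par s))
          = - (sg (a (par s)) * sg (a (par s))) * r2 := by ring
        rw [this, sg_mul_self]
        ring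
    · rw [if_neg h, if_neg (fun h3 => h (ch_eq_iff.1 h3).1)]
      rw [if_neg h]
      simp
  · intro j _ hj
    rw [ka_s, if_neg (Ne.symm hj), zero_mul]
  · simp

end Pool.Agent.W659.EC
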