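import Pool.Agent.W659.EC.CP2
import Pool.Agent.W659.EC.Lev

/-! Points, sampling. -/

set_option autoImplicit false

open scoped Matrix.Norms.L2Operator ENNReal Matrix

noncomputable section

namespace Pool.Agent.W659.EC

/-- points of level `p`: one real number in each dyadic interval of length `2^{-p}` -/
@[ext]
structure Pt (p : ℕ) where
  /-- the coordinates -/
  c : Fin (2 ^ p) → ℝ
  lo : ∀ i : Fin (2 ^ p), ((i : ℕ) : ℝ) ≤ 2 ^ p * c i
  hi : ∀ i : Fin (2 ^ p), 2 ^ p * c i < ((i : ℕ) : ℝ) + 1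

theorem ch_cast {p : ℕ} (i : Fin (2 ^ p)) (b : Bool) :
    (((ch i b : Fin (2 ^ (p + 1))) : ℕ) : ℝ) = 2 * (i : ℕ) + b.toNat := by
  simp [ch]

theorem smp_lo {p : ℕ} (x : Pt (p + 1)) (a : Fin (2 ^ p) → Bool) (i : Fin (2 ^ p)) :
    ((i : ℕ) : ℝ) ≤ 2 ^ p * x.c (ch i (a i)) := by
  have h1 := x.lo (ch i (a i))
  rw [ch_cast, pow_succ] at h1
  have h4 : (0 : ℝ) ≤ (a i).toNat := Nat.cast_nonneg _
  nlinarith

theorem smp_hi {p : ℕ} (x : Pt (p + 1)) (a : Fin (2 ^ p) → Bool) (i : Fin (2 ^ p)) :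
    2 ^ p * x.c (ch i (a i)) < ((i : ℕ) : ℝ) + 1 := by
  have h2 := x.hi (ch i (a i))
  rw [ch_cast, pow_succ] at h2
  have h5 : ((a i).toNat : ℝ) ≤ 1 := by exact_mod_cast Bool.toNat_le (a i)
  nlinarith

/-- the sampled point -/
def smp {p : ℕ} (x : Pt (p + 1)) (a : Fin (2 ^ p) → Bool) : Pt p :=
  ⟨fun i => x.c (ch i (a i)), smp_lo x a, smp_hi x a⟩

/-- the flip of a coordinate -/
def flp {p : ℕ} (i : Fin (2 ^ p)) : (Fin (2 ^ p) → Bool) ≃ (Fin (2 ^ p) → Bool) where
  toFun a := Function.update a i (!a i)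
  invFun a := Function.update a i (!a i)
  left_inv a := by simp
  right_inv a := by simp

theorem sum_flp {p : ℕ} (i : Fin (2 ^ p)) (g : (Fin (2 ^ p) → Bool) → ℂ)
    (h : ∀ a, g (flp i a) = - g a) : ∑ a, g a = 0 := by
  have h1 : ∑ a, g (flp i a) = ∑ a, g a := (flp i).sum_comp g
  simp only [h, Finset.sum_neg_distrib] at h1
  have : (2 : ℂ) * ∑ a, g a = 0 := by linear_combination -h1
  simpa using this

theorem sum_sg {p : ℕ} (i : Fin (2 ^ p)) : ∑ a : Fin (2 ^ p) → Bool, sg (a i) = 0 := by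
  refine sum_flp i _ fun a => ?_
  simp [flp, sg_not]

theorem sum_sg_sg {p : ℕ} (i j : Fin (2 ^ p)) :
    ∑ a : Fin (2 ^ p) → Bool, sg (a i) * sg (a j) = if i = j then 2 ^ (2 ^ p) else 0 := by
  by_cases h : i = j
  · subst h
    simp [sg_mul_self]
  · rw [if_neg h]
    refine sum_flp i _ fun a => ?_
    simp [flp, sg_not, Function.update_of_ne (Ne.symm h)]

/-- the number of sign patterns -/
theorem sum_eps (p : ℕ) : ∑ a, eps p a = 0 := by
  ext i j
  rw [Matrix.sum_apply]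
  rcases j with _ | j
  · simp [eps]
  · simp only [eps, Matrix.of_apply, Matrix.zero_apply]
    by_cases h : i = j
    · simp [h, sum_sg]
    · simp [h]

theorem eps_mul (p : ℕ) (a : Fin (2 ^ p) → Bool) (T : Mt p) (i j : Fin (2 ^ p)) :
    (eps p a * T * (eps p a)ᴴ) i j = sg (a i) * sg (a j) * T (some i) (some j) := by
  have h1 : ∀ x, (eps p a * T) i x = sg (a i) * T (some i) x := by
    intro x
    rw [Matrix.mul_apply, Fintype.sum_option, Finset.sum_eq_single i]
    · simp [eps]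
    · intro k _ hk; simp [eps, Ne.symm hk]
    · simp
  rw [Matrix.mul_apply, Fintype.sum_option, Finset.sum_eq_single j]
  · rw [h1, h1]
    simp only [Matrix.conjTranspose_apply, eps, Matrix.of_apply, star_zero, mul_zero, if_true,
      star_sg, zero_add]
    ring
  · intro k _ hk
    simp [Matrix.conjTranspose_apply, eps, Ne.symm hk]
  · simp

theorem sum_eps_mul (p : ℕ) (T : Mt p) :
    ∑ a, eps p a * T * (eps p a)ᴴ
      = (2 ^ (2 ^ p) : ℂ) • Matrix.diagonal fun i => T (some i) (some i) := by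
  ext i j
  rw [Matrix.sum_apply]
  simp only [eps_mul, ← Finset.sum_mul, sum_sg_sg]
  by_cases h : i = j
  · subst h; simp
  · simp [h]

/-- the average of the compressions: all the terms evaluated at the same matrix -/
theorem sum_Va (p : ℕ) (T : Mt p) :
    ∑ a, Va p a * T * (Va p a)ᴴ
      = (2 ^ (2 ^ p) : ℂ) • jm p (T, fun i => T (some i) (some i)) := by
  have h1 : ∀ a, Va p a * T * (Va p a)ᴴ = io p * T * (io p)ᴴ
      + io p * T * (eps p a)ᴴ * (ka p)ᴴ + ka p * eps p a * T * (io p)ᴴ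
      + ka p * (eps p a * T * (eps p a)ᴴ) * (ka p)ᴴ := by
    intro a
    rw [Va, Matrix.conjTranspose_add, Matrix.conjTranspose_mul]
    simp only [Matrix.mul_add, Matrix.add_mul, Matrix.mul_assoc]
    abel
  simp only [h1, Finset.sum_add_distrib, ← Matrix.mul_sum, ← Matrix.sum_mul,
    ← Matrix.conjTranspose_sum, sum_eps, sum_eps_mul]
  rw [jm, smul_add]
  simp only [Finset.sum_const, Finset.card_univ, Matrix.conjTranspose_zero, Matrix.mul_zero,
    Matrix.zero_mul, add_zero, Matrix.mul_smul, Matrix.smul_mul]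
  congr 1
  simp [← Nat.cast_smul_eq_nsmul ℂ]

/-- the sampling map applied to a family of matrices -/
def av (p : ℕ) (f : (Fin (2 ^ p) → Bool) → Mt p) : Mt (p + 1) :=
  ((2 ^ (2 ^ p) : ℂ)⁻¹) • ∑ a, Va p a * f a * (Va p a)ᴴ

theorem av_const (p : ℕ) (T : Mt p) :
    av p (fun _ => T) = jm p (T, fun i => T (some i) (some i)) := by
  rw [av, sum_Va, smul_smul, inv_mul_cancel₀ (pow_ne_zero _ two_ne_zero), one_smul]

/-- the sampling map as a linear map -/
def avL (p : ℕ) : ((Fin (2 ^ p) → Bool) → Mt p) →ₗ[ℂ] Mt (p + 1) where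
  toFun := av p
  map_add' f g := by
    simp only [av, Pi.add_apply, Matrix.mul_add, Matrix.add_mul, Finset.sum_add_distrib, smul_add]
  map_smul' c f := by
    simp only [av, Pi.smul_apply, Matrix.mul_smul, Matrix.smul_mul, RingHom.id_apply,
      ← Finset.smul_sum]
    rw [smul_comm]

theorem isCP_avL (p : ℕ) : IsCP (avL p) := by
  have h1 : avL p = (((2 ^ (2 ^ p) : ℝ)⁻¹ : ℝ) : ℂ) • ∑ a : Fin (2 ^ p) → Bool,
      (compr (Va p a)) ∘ₗ (LinearMap.proj a : ((Fin (2 ^ p) → Bool) → Mt p) →ₗ[ℂ] Mt p) := by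
    refine LinearMap.ext fun f => ?_
    simp only [LinearMap.smul_apply, LinearMap.sum_apply, LinearMap.comp_apply,
      LinearMap.proj_apply, compr_apply]
    change av p f = _
    rw [av, Complex.ofReal_inv, Complex.ofReal_pow, Complex.ofReal_ofNat]
  rw [h1]
  refine IsCP.smul (IsCP.sum _ fun a _ => ?_) (by positivity)
  refine (isCP_compr _).comp ?_
  exact isCP_hom (Pi.evalStarAlgHom ℂ (fun _ : Fin (2 ^ p) → Bool => Mt p) a) _ fun _ => rfl

theorem av_one (p : ℕ) : av p (fun _ => 1) = 1 := by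
  rw [av_const]
  have : (((1 : Mt p), fun i => (1 : Mt p) (some i) (some i)) : Kp p) = 1 := by
    ext i
    · rfl
    · simp
  rw [this, jm_one]

theorem norm_av_le (p : ℕ) (f : (Fin (2 ^ p) → Bool) → Mt p) (C : ℝ) (hC : 0 ≤ C)
    (hf : ∀ a, ‖f a‖ ≤ C) : ‖av p f‖ ≤ C := by
  have h1 := (IsCP.isCPC (isCP_avL p) (by
    have : avL p 1 = 1 := av_one p
    rw [this]
    simp)).2 f
  refine h1.trans ?_
  rw [pi_norm_le_iff_of_nonneg hC]
  exact hf

/-- the exponential function -/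
def ex (t : ℝ) : ℂ := Complex.exp (2 * Real.pi * Complex.I * t)

/-- the unitary section -/
def wm (p : ℕ) (x : Pt p) : Mt p := dg fun i => ex (x.c i)

theorem wm_Va (p : ℕ) (x : Pt (p + 1)) (a : Fin (2 ^ p) → Bool) :
    wm (p + 1) x * Va p a = Va p a * wm p (smp x a) := by
  ext s i
  rw [wm, wm, dg, dg, Matrix.diagonal_mul, Matrix.mul_diagonal]
  rcases s with _ | s <;> rcases i with _ | i
  · simp
  · simp [Va_ns]
  · simp [Va_sn]
  · rw [Va_ss]
    by_cases h : s = ch i (a i)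
    · subst h
      simp [smp]
      ring
    · simp [h]

end Pool.Agent.W659.EC
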