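import Pool.Agent.W659.EC.Alg

/-! Truncation. -/

set_option autoImplicit false

open scoped Matrix.Norms.L2Operator ENNReal Matrix

noncomputable section

namespace Pool.Agent.W659.EC

theorem Pt.nonneg {p : ℕ} (x : Pt p) (i : Fin (2 ^ p)) : 0 ≤ x.c i := by
  have h := x.lo i
  have h0 : (0 : ℝ) ≤ (i : ℕ) := Nat.cast_nonneg _
  have h1 : (0 : ℝ) < 2 ^ p := by positivity
  by_contra hc
  push Not at hc
  nlinarith

theorem Pt.lt_one {p : ℕ} (x : Pt p) (i : Fin (2 ^ p)) : x.c i < 1 := by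
  have h := x.hi i
  have h0 : ((i : ℕ) : ℝ) + 1 ≤ 2 ^ p := by exact_mod_cast i.2
  have h1 : (0 : ℝ) < 2 ^ p := by positivity
  by_contra hc
  push Not at hc
  nlinarith

theorem tr_lt {d p : ℕ} (x : Pt p) (i : Fin (2 ^ p)) : ⌊2 ^ d * x.c i⌋₊ < 2 ^ d := by
  have h := x.lt_one i
  have h0 := x.nonneg i
  have h1 : (0 : ℝ) < 2 ^ d := by positivity
  rw [Nat.floor_lt (by positivity)]
  push_cast
  nlinarith

/-- truncation of the coordinates -/
def tr (d : ℕ) {p : ℕ} (x : Pt p) : Fin (2 ^ p) → Fin (2 ^ d) :=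
  fun i => ⟨⌊2 ^ d * x.c i⌋₊, tr_lt x i⟩

theorem tr_eq_iff {d p : ℕ} {x x' : Pt p} :
    tr d x = tr d x' ↔ ∀ i, ⌊2 ^ d * x.c i⌋₊ = ⌊2 ^ d * x'.c i⌋₊ := by
  constructor
  · intro h i
    exact congrArg Fin.val (congrFun h i)
  · intro h
    funext i
    exact Fin.ext (h i)

theorem floor_half {d e : ℕ} (h : d ≤ e) (t : ℝ) :
    ⌊2 ^ d * t⌋₊ = ⌊2 ^ e * t⌋₊ / 2 ^ (e - d) := by
  rw [← Nat.floor_div_natCast]
  congr 1
  push_cast
  have h1 : (2 : ℝ) ^ e = 2 ^ d * 2 ^ (e - d) := by rw [← pow_add]; congr 1; omega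
  rw [h1]
  field_simp

theorem floor_self {p : ℕ} (x : Pt p) (i : Fin (2 ^ p)) : ⌊2 ^ p * x.c i⌋₊ = i := by
  rw [Nat.floor_eq_iff (by have := x.nonneg i; positivity)]
  exact ⟨x.lo i, x.hi i⟩

theorem tr_mono {d e p : ℕ} (h : d ≤ e) {x x' : Pt p} (hx : tr e x = tr e x') :
    tr d x = tr d x' := by
  rw [tr_eq_iff] at *
  intro i
  rw [floor_half h, floor_half h, hx i]

theorem tr_self {p : ℕ} (x x' : Pt p) : tr p x = tr p x' := by
  rw [tr_eq_iff]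
  intro i
  rw [floor_self, floor_self]

theorem tr_smp {d p : ℕ} {x x' : Pt (p + 1)} (h : tr d x = tr d x') (a : Fin (2 ^ p) → Bool) :
    tr d (smp x a) = tr d (smp x' a) := by
  rw [tr_eq_iff] at *
  intro i
  exact h _

theorem tr_dist {d p : ℕ} {x x' : Pt p} (h : tr d x = tr d x') (i : Fin (2 ^ p)) :
    |x.c i - x'.c i| ≤ (2 ^ d)⁻¹ := by
  rw [tr_eq_iff] at h
  have h0 : (0 : ℝ) < 2 ^ d := by positivity
  have h1 := Nat.floor_le (show 0 ≤ 2 ^ d * x.c i by have := x.nonneg i; positivity)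
  have h2 := Nat.lt_floor_add_one (2 ^ d * x.c i)
  have h3 := Nat.floor_le (show 0 ≤ 2 ^ d * x'.c i by have := x'.nonneg i; positivity)
  have h4 := Nat.lt_floor_add_one (2 ^ d * x'.c i)
  rw [h i] at h1 h2
  have h5 : (2 : ℝ) ^ d * (x.c i - x'.c i) ≤ 1 := by nlinarith
  have h6 : (2 : ℝ) ^ d * (x'.c i - x.c i) ≤ 1 := by nlinarith
  rw [abs_le, inv_eq_one_div, neg_le]
  constructor
  · rw [le_div_iff₀ h0]
    nlinarith
  · rw [le_div_iff₀ h0]
    nlinarith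

/-- the left end points -/
def pt0 (p : ℕ) : Pt p where
  c i := (i : ℕ) / 2 ^ p
  lo i := by
    have h0 : (0 : ℝ) < 2 ^ p := by positivity
    rw [mul_div_cancel₀ _ h0.ne']
  hi i := by
    have h0 : (0 : ℝ) < 2 ^ p := by positivity
    rw [mul_div_cancel₀ _ h0.ne']
    linarith

instance (p : ℕ) : Inhabited (Pt p) := ⟨pt0 p⟩

open Classical in
/-- a representative of a truncation class -/
def rep {d p : ℕ} (t : Fin (2 ^ p) → Fin (2 ^ d)) : Pt p :=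
  if h : ∃ x : Pt p, tr d x = t then h.choose else default

theorem tr_rep {d p : ℕ} (x : Pt p) : tr d (rep (tr d x)) = tr d x := by
  have h : ∃ y : Pt p, tr d y = tr d x := ⟨x, rfl⟩
  rw [rep, dif_pos h]
  exact h.choose_spec

/-- the sections of depth `d` -/
def InS (d : ℕ) (f : ∀ p, Pt p → Mt p) : Prop :=
  (∀ p ≤ d, ∀ x x' : Pt p, tr d x = tr d x' → f p x = f p x') ∧
    ∃ k : ∀ p, Kp p, (∀ p ≥ d, k (p + 1) = jk p (k p)) ∧ ∀ p ≥ d, ∀ x, f p x = (k p).1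

theorem InS.mono {d e : ℕ} (h : d ≤ e) {f : ∀ p, Pt p → Mt p} (hf : InS d f) : InS e f := by
  obtain ⟨h1, k, h2, h3⟩ := hf
  refine ⟨fun p hp x x' hx => ?_, k, fun p hp => h2 p (h.trans hp), fun p hp => h3 p (h.trans hp)⟩
  rcases le_total p d with hpd | hpd
  · exact h1 p hpd x x' (tr_mono h hx)
  · rw [h3 p hpd, h3 p hpd]

theorem InS.add {d : ℕ} {f g : ∀ p, Pt p → Mt p} (hf : InS d f) (hg : InS d g) :
    InS d (fun p x => f p x + g p x) := by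
  obtain ⟨h1, k, h2, h3⟩ := hf
  obtain ⟨h1', k', h2', h3'⟩ := hg
  refine ⟨fun p hp x x' hx => ?_, fun p => k p + k' p, fun p hp => ?_, fun p hp x => ?_⟩
  · beta_reduce; rw [h1 p hp x x' hx, h1' p hp x x' hx]
  · beta_reduce; rw [h2 p hp, h2' p hp]; exact (map_add (jkH p) _ _).symm
  · beta_reduce; rw [h3 p hp, h3' p hp]; rfl

theorem InS.mul {d : ℕ} {f g : ∀ p, Pt p → Mt p} (hf : InS d f) (hg : InS d g) :
    InS d (fun p x => f p x * g p x) := by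
  obtain ⟨h1, k, h2, h3⟩ := hf
  obtain ⟨h1', k', h2', h3'⟩ := hg
  refine ⟨fun p hp x x' hx => ?_, fun p => k p * k' p, fun p hp => ?_, fun p hp x => ?_⟩
  · beta_reduce; rw [h1 p hp x x' hx, h1' p hp x x' hx]
  · beta_reduce; rw [h2 p hp, h2' p hp]; exact (map_mul (jkH p) _ _).symm
  · beta_reduce; rw [h3 p hp, h3' p hp]; rfl

theorem InS.star {d : ℕ} {f : ∀ p, Pt p → Mt p} (hf : InS d f) :
    InS d (fun p x => Star.star (f p x)) := by
  obtain ⟨h1, k, h2, h3⟩ := hf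
  refine ⟨fun p hp x x' hx => ?_, fun p => Star.star (k p), fun p hp => ?_, fun p hp x => ?_⟩
  · beta_reduce; rw [h1 p hp x x' hx]
  · beta_reduce; rw [h2 p hp]; exact (map_star (jkH p) _).symm
  · beta_reduce; rw [h3 p hp]; rfl

theorem InS.alg (d : ℕ) (c : ℂ) : InS d (fun p _ => algebraMap ℂ (Mt p) c) := by
  refine ⟨fun p hp x x' hx => rfl, fun p => algebraMap ℂ (Kp p) c, fun p hp => ?_,
    fun p hp x => rfl⟩
  exact (AlgHomClass.commutes (jkH p) c).symm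

/-- the union of the algebras of sections of finite depth -/
def Sinf : StarSubalgebra ℂ Am where
  carrier := {a | ∃ d, InS d fun p x => a ⟨p, x⟩}
  mul_mem' := by
    rintro a b ⟨d, hd⟩ ⟨e, he⟩
    exact ⟨max d e, (hd.mono (le_max_left _ _)).mul (he.mono (le_max_right _ _))⟩
  add_mem' := by
    rintro a b ⟨d, hd⟩ ⟨e, he⟩
    exact ⟨max d e, (hd.mono (le_max_left _ _)).add (he.mono (le_max_right _ _))⟩
  algebraMap_mem' c := ⟨0, InS.alg 0 c⟩
  star_mem' := by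
    rintro a ⟨d, hd⟩
    exact ⟨d, hd.star⟩

/-- the algebra, as a subalgebra -/
def AAs : StarSubalgebra ℂ Am := Sinf.topologicalClosure

instance instAAs : IsClosed (AAs : Set Am) := Sinf.isClosed_topologicalClosure

/-- the algebra -/
abbrev AA : Type := AAs

instance instAA : CStarAlgebra AA := StarSubalgebra.cstarAlgebra AAs

theorem mem_AAs {a : Am} : a ∈ AAs ↔ ∀ ε > 0, ∃ b ∈ Sinf, ‖a - b‖ ≤ ε := by
  change a ∈ closure (Sinf : Set Am) ↔ _
  rw [Metric.mem_closure_iff]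
  constructor
  · intro h ε hε
    obtain ⟨b, hb, h2⟩ := h ε hε
    rw [dist_eq_norm] at h2
    exact ⟨b, hb, h2.le⟩
  · intro h ε hε
    obtain ⟨b, hb, h2⟩ := h (ε / 2) (half_pos hε)
    refine ⟨b, hb, ?_⟩
    rw [dist_eq_norm]
    linarith

theorem Sinf_le {a : Am} (ha : a ∈ Sinf) : a ∈ AAs :=
  subset_closure ha

/-- evaluation -/
def ev (p : ℕ) (x : Pt p) : AA →⋆ₐ[ℂ] Mt p := (evA p x).comp AAs.subtype

@[simp] theorem ev_apply (p : ℕ) (x : Pt p) (a : AA) : ev p x a = (a : Am) ⟨p, x⟩ := rfl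

theorem AA.norm_le {a : AA} {C : ℝ} (hC : 0 ≤ C) (h : ∀ p (x : Pt p), ‖ev p x a‖ ≤ C) :
    ‖a‖ ≤ C := Am.norm_le (a := (a : Am)) hC h

theorem AA.norm_ev (a : AA) (p) (x : Pt p) : ‖ev p x a‖ ≤ ‖a‖ :=
  Am.norm_apply (a : Am) p x

theorem AA.ext {a b : AA} (h : ∀ p (x : Pt p), ev p x a = ev p x b) : a = b :=
  Subtype.ext (Am.ext h)

/-- density -/
theorem AA.approx (a : AA) {ε : ℝ} (hε : 0 < ε) :
    ∃ (d : ℕ) (b : AA), InS d (fun p x => ev p x b) ∧ ‖a - b‖ ≤ ε := by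
  obtain ⟨b, ⟨d, hd⟩, h⟩ := mem_AAs.1 a.2 ε hε
  exact ⟨d, ⟨b, Sinf_le ⟨d, hd⟩⟩, hd, h⟩

end Pool.Agent.W659.EC
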